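import Pool.Agent.K3h69.IN.M4b

/-!
# At most one irreducible representation of `N_G(P) / P` occurs in an irreducible representation
-/

set_option autoImplicit false

open scoped BigOperators Classical

noncomputable section

namespace Pool.Agent.K3h69.IN

open Pool.Agent.K3h83.IN Pool.Agent.K3h3.MK

variable {F G V : Type} [Field F] [Group G] [AddCommGroup V] [Module F V]

theorem key4 [IsAlgClosed F] [Finite G] [FiniteDimensional F V] {p : ℕ} [hp : Fact p.Prime]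
    [CharP F p] (P : Sylow p G) (hP : Nat.card P = p) (ρ : Representation F G V)
    (hi : ρ.IsIrreducible) (x₀ : G) (hx : x₀ ∈ P) (hx1 : x₀ ≠ 1) (j : ℕ)
    (hj : ∀ v ∈ FP ρ P, (∃ w, ((ρ x₀ - 1 : Module.End F V) ^ (j + 1)) w = v) → v ∈ TP ρ P)
    (D : Submodule F V) (hD1 : ∀ v ∈ D, v ∈ FP ρ P) (hD2 : ∀ k ∈ NN P, ∀ v ∈ D, ρ k v ∈ D)
    (hD3 : TP ρ P ≤ D) (hD4 : ∃ d ∈ D, d ∉ TP ρ P)
    (hD5 : ∀ d ∈ D, ∃ b ∈ TP ρ P, ∃ w, ((ρ x₀ - 1 : Module.End F V) ^ j) w = d - b) :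
    ∀ v ∈ FP ρ P, v ∈ D := by
  obtain ⟨X, hX⟩ : ∃ X : Module.End F V, X = ρ x₀ - 1 := ⟨_, rfl⟩
  rw [← hX] at hj hD5
  have hFP : ∀ v, v ∈ FP ρ P ↔ X v = 0 := fun v => by rw [hX]; exact FP_iff P hP ρ x₀ hx hx1 v
  obtain ⟨π, hπ1, hπ2, hπ3⟩ := exists_proj (TP ρ P) (D ⊓ LinearMap.range (X ^ j))
    (TP ρ P ⊔ LinearMap.range (X ^ (j + 1))) le_sup_left (by
      intro v hvE hvY
      obtain ⟨b, hb, r, ⟨w, hw⟩, hbr⟩ := Submodule.mem_sup.mp hvY
      have h1 : r ∈ TP ρ P := by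
        apply hj r _ ⟨w, hw⟩
        have : r = v - b := by rw [← hbr]; abel
        rw [this]
        exact (FP ρ P).sub_mem (hD1 v hvE.1) (TP_le _ ρ b hb)
      rw [← hbr]
      exact (TP ρ P).add_mem hb h1)
  have hDE : ∀ d ∈ D, π d - d ∈ TP ρ P := by
    intro d hd
    apply hπ3
    obtain ⟨b, hb, w, hw⟩ := hD5 d hd
    have : d = b + (d - b) := by abel
    rw [this]
    exact Submodule.add_mem_sup hb ⟨D.sub_mem hd (hD3 hb), ⟨w, hw⟩⟩
  obtain ⟨Φ, hΦ1, hΦ2⟩ := lift_end X j π (fun v => (hFP _).mp (hD1 _ (hπ1 v).1))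
    (fun v => (hπ1 v).2) (fun v => hπ2 _ (Submodule.mem_sup_right ⟨v, rfl⟩))
  -- `Φ` commutes with `P`
  have hTX : ∀ v, ρ x₀ v = X v + v := by
    intro v
    rw [hX, LinearMap.sub_apply, Module.End.one_apply, sub_add_cancel]
  have hΦx : ∀ v, ρ x₀ (Φ v) = Φ (ρ x₀ v) := by
    intro v
    rw [hTX, hTX, map_add, hΦ1]
  have hΦP : ∀ z ∈ P, ∀ v, ρ z (Φ v) = Φ (ρ z v) := by
    intro z hz
    obtain ⟨i, rfl⟩ := gen P hP x₀ hx hx1 z hz
    clear hz
    induction i with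
    | zero =>
      intro v
      rw [pow_zero, map_one]
      rfl
    | succ i ih =>
      intro v
      rw [pow_succ, rho_mul, rho_mul, hΦx, ih]
  let H : Subgroup (NN P) := (P : Subgroup G).subgroupOf (NN P)
  let ρN : Representation F (NN P) V := ρ.comp (NN P).subtype
  have hH : ∀ h ∈ H, ∀ v, ρN h (Φ v) = Φ (ρN h v) := fun h hh v => hΦP h hh v
  letI := Fintype.ofFinite (NN P ⧸ H)
  obtain ⟨c, hc⟩ := scal P hP ρ hi (rT ρN Φ H hH) (by
    intro h hh v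
    exact (rT_comm ρN Φ H hH ⟨h, hh⟩ v).symm)
  -- the index
  have hk : ((Nat.card (NN P ⧸ H) : ℕ) : F) ≠ 0 := by
    intro h0
    rw [CharP.cast_eq_zero_iff F p] at h0
    have h1 : Nat.card (NN P ⧸ H) = (P : Subgroup G).relIndex (NN P) := rfl
    have h2 : (P : Subgroup G).relIndex (NN P) * (NN P).index = (P : Subgroup G).index :=
      Subgroup.relIndex_mul_index Subgroup.le_normalizer
    rw [h1] at h0
    have h3 : p ∣ (P : Subgroup G).index := by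
      rw [← h2]
      exact h0.mul_right _
    exact P.not_dvd_index h3
  have hN : ∀ k : NN P, ∀ v ∈ FP ρ P, ρN k v ∈ FP ρ P := fun k v hv => FP_stable P ρ k k.2 v hv
  have hcj : ∀ (n : NN P) (v : V), v ∈ FP ρ P → cj ρN Φ n v = ρN n (π (ρN n⁻¹ v)) := by
    intro n v hv
    rw [cj_apply, hΦ2 _ ((hFP _).mp (hN n⁻¹ v hv))]
  have hD : ∀ v ∈ FP ρ P, rT ρN Φ H hH v ∈ D := by
    intro v hv
    rw [rT_apply]
    refine D.sum_mem fun q _ => ?_
    obtain ⟨n, rfl⟩ := QuotientGroup.mk_surjective q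
    rw [cq_mk, hcj n v hv]
    exact hD2 n n.2 _ (hπ1 _).1
  have hd : ∀ d ∈ D, rT ρN Φ H hH d - ((Nat.card (NN P ⧸ H) : ℕ) : F) • d ∈ TP ρ P := by
    intro d hd
    have e : rT ρN Φ H hH d - ((Nat.card (NN P ⧸ H) : ℕ) : F) • d =
        ∑ q : NN P ⧸ H, (cq ρN Φ H hH q d - d) := by
      rw [rT_apply, Finset.sum_sub_distrib, Finset.sum_const, Finset.card_univ,
        ← Nat.card_eq_fintype_card, Nat.cast_smul_eq_nsmul]
    rw [e]
    refine (TP ρ P).sum_mem fun q _ => ?_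
    obtain ⟨n, rfl⟩ := QuotientGroup.mk_surjective q
    rw [cq_mk, hcj n d (hD1 d hd)]
    have h1 : ρN n⁻¹ d ∈ D := hD2 _ (n⁻¹).2 d hd
    have h2 := hDE _ h1
    have h3 := TP_stable P ρ n n.2 _ h2
    rw [map_sub] at h3
    have h4 : ρ (n : G) (ρN n⁻¹ d) = d := rho_self_inv ρN n d
    rw [h4] at h3
    exact h3
  obtain ⟨d, hdD, hdT⟩ := hD4
  have hck : c = ((Nat.card (NN P ⧸ H) : ℕ) : F) := by
    by_contra hne
    apply hdT
    have h1 := hc d (hD1 d hdD)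
    have h2 := hd d hdD
    have h3 := (TP ρ P).sub_mem h1 h2
    have e : rT ρN Φ H hH d - c • d - (rT ρN Φ H hH d - ((Nat.card (NN P ⧸ H) : ℕ) : F) • d) =
        (((Nat.card (NN P ⧸ H) : ℕ) : F) - c) • d := by
      rw [sub_smul]
      abel
    rw [e] at h3
    exact ((TP ρ P).smul_mem_iff (sub_ne_zero.mpr (Ne.symm hne))).mp h3
  intro v hv
  have h1 := hD3 (hc v hv)
  have h2 := D.sub_mem (hD v hv) h1
  have e : rT ρN Φ H hH v - (rT ρN Φ H hH v - c • v) = c • v := by abel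
  rw [e, hck] at h2
  exact (D.smul_mem_iff hk).mp h2

/-- an occurring representation fills the whole space -/
theorem occ_full [IsAlgClosed F] [Finite G] [FiniteDimensional F V] {p : ℕ} [hp : Fact p.Prime]
    [CharP F p] {W : Type} [AddCommGroup W] [Module F W] (P : Sylow p G) (hP : Nat.card P = p)
    (ρ : Representation F G V) (hi : ρ.IsIrreducible) (τ : Representation F (NN P) W)
    (f : W →ₗ[F] V) (hf1 : ∀ w, f w ∈ FP ρ P)
    (hf2 : ∀ (k : NN P) (w : W), ρ k (f w) - f (τ k w) ∈ TP ρ P) (hf3 : ∃ w, f w ∉ TP ρ P) :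
    ∀ v ∈ FP ρ P, ∃ w, v - f w ∈ TP ρ P := by
  obtain ⟨x₀, hx, hx1⟩ : ∃ x₀ ∈ P, x₀ ≠ 1 := by
    haveI : Nontrivial P := by
      rw [← Finite.one_lt_card_iff_nontrivial, hP]
      exact hp.out.one_lt
    obtain ⟨x, hx⟩ := exists_ne (1 : P)
    exact ⟨x, x.2, fun h => hx (Subtype.ext h)⟩
  have hxp : x₀ ^ p = 1 := by
    have h1 : (⟨x₀, hx⟩ : P) ^ Nat.card P = 1 := pow_card_eq_one'
    rw [hP] at h1
    exact congrArg Subtype.val h1
  have hex : ∃ m : ℕ, ∀ v ∈ FP ρ P, (∃ w, ((ρ x₀ - 1 : Module.End F V) ^ m) w = v) → v ∈ TP ρ P := by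
    refine ⟨p, fun v _ hv => ?_⟩
    obtain ⟨w, rfl⟩ := hv
    rw [X_pow ρ x₀ hxp]
    exact (TP ρ P).zero_mem
  let m := Nat.find hex
  have hm := Nat.find_spec hex
  have hm0 : Nat.find hex ≠ 0 := by
    intro h0
    rw [h0] at hm
    obtain ⟨w, hw⟩ := hf3
    exact hw (hm _ (hf1 w) ⟨f w, rfl⟩)
  obtain ⟨j, hj⟩ := Nat.exists_eq_succ_of_ne_zero hm0
  rw [hj] at hm
  have hjn := Nat.find_min hex (m := j) (by omega)
  push Not at hjn
  obtain ⟨v₀, hv₀, ⟨w₀, hw₀⟩, hv₀T⟩ := hjn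
  -- first step
  have step1 := key4 P hP ρ hi x₀ hx hx1 j hm
    (TP ρ P ⊔ (FP ρ P ⊓ LinearMap.range ((ρ x₀ - 1 : Module.End F V) ^ j)))
    (by
      intro v hv
      obtain ⟨b, hb, r, hr, rfl⟩ := Submodule.mem_sup.mp hv
      exact (FP ρ P).add_mem (TP_le _ ρ b hb) hr.1)
    (by
      intro k hk v hv
      obtain ⟨b, hb, r, ⟨hr1, w, hw⟩, rfl⟩ := Submodule.mem_sup.mp hv
      rw [map_add]
      refine Submodule.add_mem_sup (TP_stable P ρ k hk b hb) ⟨FP_stable P ρ k hk r hr1, ?_⟩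
      obtain ⟨w', hw'⟩ := range_stable P hP ρ x₀ hx hx1 k hk j w
      refine ⟨w', ?_⟩
      rw [← hw', hw])
    le_sup_left
    ⟨v₀, Submodule.mem_sup_right ⟨hv₀, w₀, hw₀⟩, hv₀T⟩
    (by
      intro d hd
      obtain ⟨b, hb, r, ⟨hr1, w, hw⟩, rfl⟩ := Submodule.mem_sup.mp hd
      refine ⟨b, hb, w, ?_⟩
      rw [hw]
      abel)
  -- second step
  have step2 := key4 P hP ρ hi x₀ hx hx1 j hm (TP ρ P ⊔ LinearMap.range f)
    (by
      intro v hv
      obtain ⟨b, hb, r, ⟨w, rfl⟩, rfl⟩ := Submodule.mem_sup.mp hv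
      exact (FP ρ P).add_mem (TP_le _ ρ b hb) (hf1 w))
    (by
      intro k hk v hv
      obtain ⟨b, hb, r, ⟨w, rfl⟩, rfl⟩ := Submodule.mem_sup.mp hv
      rw [map_add]
      have h1 := hf2 ⟨k, hk⟩ w
      have e : ρ k b + ρ k (f w) = (ρ k b + (ρ k (f w) - f (τ ⟨k, hk⟩ w))) + f (τ ⟨k, hk⟩ w) := by
        abel
      rw [e]
      exact Submodule.add_mem_sup ((TP ρ P).add_mem (TP_stable P ρ k hk b hb) h1) ⟨_, rfl⟩)
    le_sup_left
    (by
      obtain ⟨w, hw⟩ := hf3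
      exact ⟨f w, Submodule.mem_sup_right ⟨w, rfl⟩, hw⟩)
    (by
      intro d hd
      have h1 : d ∈ FP ρ P := by
        obtain ⟨b, hb, r, ⟨w, rfl⟩, rfl⟩ := Submodule.mem_sup.mp hd
        exact (FP ρ P).add_mem (TP_le _ ρ b hb) (hf1 w)
      obtain ⟨b, hb, r, ⟨hr1, w, hw⟩, rfl⟩ := Submodule.mem_sup.mp (step1 d h1)
      refine ⟨b, hb, w, ?_⟩
      rw [hw]
      abel)
  intro v hv
  obtain ⟨b, hb, r, ⟨w, rfl⟩, rfl⟩ := Submodule.mem_sup.mp (step2 v hv)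
  refine ⟨w, ?_⟩
  rw [add_sub_cancel_right]
  exact hb

theorem occ_inj [Finite G] {p : ℕ} {W : Type} [AddCommGroup W] [Module F W] (P : Sylow p G)
    (ρ : Representation F G V) (τ : Representation F (NN P) W) (hτ : τ.IsIrreducible)
    (f : W →ₗ[F] V)
    (hf2 : ∀ (k : NN P) (w : W), ρ k (f w) - f (τ k w) ∈ TP ρ P) (hf3 : ∃ w, f w ∉ TP ρ P) :
    ∀ w, f w ∈ TP ρ P → w = 0 := by
  haveI := hτ
  let U : Subrepresentation τ :=
    { toSubmodule := (TP ρ P).comap f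
      apply_mem_toSubmodule := by
        intro k w hw
        have h1 := hf2 k w
        have h2 := TP_stable P ρ k k.2 _ hw
        have h3 := (TP ρ P).sub_mem h2 h1
        rw [sub_sub_cancel] at h3
        exact h3 }
  have hU : U = ⊥ ∨ U = ⊤ := eq_bot_or_eq_top U
  intro w hw
  rcases hU with h | h
  · have h1 : w ∈ (⊥ : Subrepresentation τ) := by
      rw [← h]
      exact hw
    exact h1
  · exfalso
    obtain ⟨w', hw'⟩ := hf3
    apply hw'
    have h1 : w' ∈ (⊤ : Subrepresentation τ) := trivial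
    rw [← h] at h1
    exact h1

theorem t_M4 : M4 := by
  intro p _ F _ _ _ G _ _ P hP m ρ hi n n' τ τ' hτ hτ' _ _ ho ho' hne
  obtain ⟨f, hf1, hf2, hf3⟩ := ho
  obtain ⟨f', hf1', hf2', hf3'⟩ := ho'
  apply hne
  have a1 := occ_full P hP ρ hi τ f hf1 hf2 hf3
  have a2 := occ_full P hP ρ hi τ' f' hf1' hf2' hf3'
  have b1 := occ_inj P ρ τ hτ f hf2 hf3
  have b2 := occ_inj P ρ τ' hτ' f' hf2' hf3'
  let g : (Fin n → F) →ₗ[F] ((Fin m → F) ⧸ TP ρ P) := (TP ρ P).mkQ ∘ₗ f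
  let g' : (Fin n' → F) →ₗ[F] ((Fin m → F) ⧸ TP ρ P) := (TP ρ P).mkQ ∘ₗ f'
  have hg : Function.Injective g := by
    rw [← LinearMap.ker_eq_bot, LinearMap.ker_eq_bot']
    intro w hw
    exact b1 w ((Submodule.Quotient.mk_eq_zero _).mp hw)
  have hg' : Function.Injective g' := by
    rw [← LinearMap.ker_eq_bot, LinearMap.ker_eq_bot']
    intro w hw
    exact b2 w ((Submodule.Quotient.mk_eq_zero _).mp hw)
  have hr : LinearMap.range g = LinearMap.range g' := by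
    apply le_antisymm
    · rintro _ ⟨w, rfl⟩
      obtain ⟨w', hw'⟩ := a2 (f w) (hf1 w)
      refine ⟨w', ?_⟩
      exact ((Submodule.Quotient.eq _).mpr hw').symm
    · rintro _ ⟨w, rfl⟩
      obtain ⟨w', hw'⟩ := a1 (f' w) (hf1' w)
      refine ⟨w', ?_⟩
      exact ((Submodule.Quotient.eq _).mpr hw').symm
  let e : (Fin n → F) ≃ₗ[F] (Fin n' → F) :=
    (LinearEquiv.ofInjective g hg).trans
      ((LinearEquiv.ofEq _ _ hr).trans (LinearEquiv.ofInjective g' hg').symm)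
  have he : ∀ w, g' (e w) = g w := by
    intro w
    have h1 : LinearEquiv.ofInjective g' hg' (e w) = LinearEquiv.ofEq _ _ hr
        (LinearEquiv.ofInjective g hg w) := by
      change LinearEquiv.ofInjective g' hg' ((LinearEquiv.ofInjective g' hg').symm _) = _
      rw [LinearEquiv.apply_symm_apply]
      rfl
    exact congrArg Subtype.val h1
  refine ⟨e, fun k w => hg' ?_⟩
  rw [he]
  have h1 : f w - f' (e w) ∈ TP ρ P := (Submodule.Quotient.eq _).mp (he w).symm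
  have h2 := TP_stable P ρ k k.2 _ h1
  rw [map_sub] at h2
  have h3 := hf2 k w
  have h4 := hf2' k (e w)
  refine (Submodule.Quotient.eq _).mpr ?_
  have e1 : f (τ k w) - f' (τ' k (e w)) = (ρ k (f w) - ρ k (f' (e w))) -
      (ρ k (f w) - f (τ k w)) + (ρ k (f' (e w)) - f' (τ' k (e w))) := by abel
  change f (τ k w) - f' (τ' k (e w)) ∈ TP ρ P
  rw [e1]
  exact (TP ρ P).add_mem ((TP ρ P).sub_mem h2 h3) h4

end Pool.Agent.K3h69.IN
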