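import Pool.Agent.K3h83.IN.Stm5

/-!
# Modular representations: relative traces and fixed points of a Sylow subgroup of order `p`
-/

set_option autoImplicit false

open scoped BigOperators Classical

noncomputable section

namespace Pool.Agent.K3h69.IN

open Pool.Agent.K3h83.IN Pool.Agent.K3h3.MK

variable {F G V : Type} [Field F] [Group G] [AddCommGroup V] [Module F V]

/-- Schur's lemma -/
theorem schurF [IsAlgClosed F] [FiniteDimensional F V] (ρ : Representation F G V)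
    (hi : ρ.IsIrreducible) (T : V →ₗ[F] V) (hc : ∀ (h : G) (v : V), T (ρ h v) = ρ h (T v)) :
    ∃ c : F, ∀ v, T v = c • v := by
  let T' : Representation.IntertwiningMap ρ ρ := T.intertwiningMap_of_isIntertwiningMap ρ ρ hc
  obtain ⟨c, hc⟩ :=
    (Representation.IsIrreducible.algebraMap_intertwiningMap_bijective_of_isAlgClosed
      (ρ := ρ)).2 T'
  refine ⟨c, fun v => ?_⟩
  have := congrArg (fun S : Representation.IntertwiningMap ρ ρ => S v) hc
  have h2 : T' v = T v := rfl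
  rw [← h2]
  exact this.symm

/-- conjugates of an operator -/
def cj (ρ : Representation F G V) (η : V →ₗ[F] V) (g : G) : V →ₗ[F] V := ρ g ∘ₗ η ∘ₗ ρ g⁻¹

theorem cj_apply (ρ : Representation F G V) (η : V →ₗ[F] V) (g : G) (v : V) :
    cj ρ η g v = ρ g (η (ρ g⁻¹ v)) := rfl

theorem rho_mul (ρ : Representation F G V) (g h : G) (v : V) : ρ (g * h) v = ρ g (ρ h v) := by
  rw [map_mul]
  rfl

theorem rho_inv_self (ρ : Representation F G V) (g : G) (v : V) : ρ g⁻¹ (ρ g v) = v := by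
  rw [← rho_mul, inv_mul_cancel, map_one]
  rfl

theorem rho_self_inv (ρ : Representation F G V) (g : G) (v : V) : ρ g (ρ g⁻¹ v) = v := by
  rw [← rho_mul, mul_inv_cancel, map_one]
  rfl

theorem cj_mul (ρ : Representation F G V) (η : V →ₗ[F] V) (H : Subgroup G)
    (hη : ∀ h ∈ H, ∀ v, ρ h (η v) = η (ρ h v)) (g h : G) (hh : h ∈ H) :
    cj ρ η (g * h) = cj ρ η g := by
  ext v
  rw [cj_apply, cj_apply, mul_inv_rev, rho_mul, rho_mul, hη h hh, rho_self_inv]

/-- the conjugates are indexed by cosets -/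
def cq (ρ : Representation F G V) (η : V →ₗ[F] V) (H : Subgroup G)
    (hη : ∀ h ∈ H, ∀ v, ρ h (η v) = η (ρ h v)) (q : G ⧸ H) : V →ₗ[F] V :=
  Quotient.liftOn' q (cj ρ η) (by
    intro a b hab
    rw [QuotientGroup.leftRel_apply] at hab
    have := cj_mul ρ η H hη a (a⁻¹ * b) hab
    rw [mul_inv_cancel_left] at this
    exact this.symm)

theorem cq_mk (ρ : Representation F G V) (η : V →ₗ[F] V) (H : Subgroup G)
    (hη : ∀ h ∈ H, ∀ v, ρ h (η v) = η (ρ h v)) (g : G) :
    cq ρ η H hη (g : G ⧸ H) = cj ρ η g := rfl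

theorem cq_smul (ρ : Representation F G V) (η : V →ₗ[F] V) (H : Subgroup G)
    (hη : ∀ h ∈ H, ∀ v, ρ h (η v) = η (ρ h v)) (g : G) (q : G ⧸ H) (v : V) :
    cq ρ η H hη (g • q) (ρ g v) = ρ g (cq ρ η H hη q v) := by
  obtain ⟨a, rfl⟩ := QuotientGroup.mk_surjective q
  change cj ρ η (g * a) (ρ g v) = ρ g (cj ρ η a v)
  rw [cj_apply, cj_apply, mul_inv_rev, rho_mul ρ a⁻¹ g⁻¹, rho_inv_self, rho_mul]

/-- the relative trace -/
def rT [Finite G] (ρ : Representation F G V) (η : V →ₗ[F] V) (H : Subgroup G)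
    (hη : ∀ h ∈ H, ∀ v, ρ h (η v) = η (ρ h v)) : V →ₗ[F] V :=
  letI := Fintype.ofFinite (G ⧸ H)
  ∑ q : G ⧸ H, cq ρ η H hη q

theorem rT_apply [Finite G] (H' : Subgroup G) [Fintype (G ⧸ H')] (ρ : Representation F G V)
    (η : V →ₗ[F] V) (hη : ∀ h ∈ H', ∀ v, ρ h (η v) = η (ρ h v)) (v : V) :
    rT ρ η H' hη v = ∑ q : G ⧸ H', cq ρ η H' hη q v := by
  rw [rT, LinearMap.sum_apply]
  refine Finset.sum_congr ?_ fun _ _ => rfl
  ext
  simp only [Finset.mem_univ]

theorem rT_comm [Finite G] (ρ : Representation F G V) (η : V →ₗ[F] V) (H : Subgroup G)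
    (hη : ∀ h ∈ H, ∀ v, ρ h (η v) = η (ρ h v)) (g : G) (v : V) :
    rT ρ η H hη (ρ g v) = ρ g (rT ρ η H hη v) := by
  letI := Fintype.ofFinite (G ⧸ H)
  rw [rT_apply, rT_apply, map_sum]
  rw [← (MulAction.bijective g : Function.Bijective fun q : G ⧸ H => g • q).sum_comp
    (fun q => cq ρ η H hη q (ρ g v))]
  exact Finset.sum_congr rfl fun q _ => cq_smul ρ η H hη g q v

/-- sums over free orbits -/
theorem orb_sum [Finite G] (P : Subgroup G) (ρ : Representation F G V) (Ω : Type)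
    [MulAction G Ω] (Fn : Ω → V) (hF : ∀ y ∈ P, ∀ q, Fn (y • q) = ρ y (Fn q)) :
    ∀ (n : ℕ) (s : Finset Ω), s.card = n → (∀ y ∈ P, ∀ q ∈ s, y • q ∈ s) →
      (∀ q ∈ s, ∀ y ∈ P, y • q = q → y = 1) → ∑ q ∈ s, Fn q ∈ TP ρ P := by
  letI := Fintype.ofFinite P
  intro n
  induction n using Nat.strong_induction_on with
  | _ n ih =>
    intro s hsn hs hfree
    rcases s.eq_empty_or_nonempty with rfl | ⟨q, hq⟩
    · rw [Finset.sum_empty]
      exact (TP ρ P).zero_mem
    · let O : Finset Ω := Finset.univ.image fun y : P => (y : G) • q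
      have hO : O ⊆ s := by
        intro r hr
        obtain ⟨y, _, rfl⟩ := Finset.mem_image.mp hr
        exact hs y y.2 q hq
      have hqO : q ∈ O := Finset.mem_image.mpr ⟨1, Finset.mem_univ _, one_smul _ _⟩
      rw [← Finset.sum_sdiff hO]
      refine (TP ρ P).add_mem (ih (s \ O).card ?_ (s \ O) rfl ?_ ?_) ?_
      · rw [← hsn]
        exact Finset.card_lt_card (Finset.sdiff_ssubset hO ⟨q, hqO⟩)
      · intro y hy r hr
        rw [Finset.mem_sdiff] at hr ⊢
        refine ⟨hs y hy r hr.1, fun h => hr.2 ?_⟩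
        obtain ⟨z, _, hz⟩ := Finset.mem_image.mp h
        refine Finset.mem_image.mpr ⟨⟨y⁻¹ * z, P.mul_mem (P.inv_mem hy) z.2⟩, Finset.mem_univ _, ?_⟩
        change (y⁻¹ * z : G) • q = r
        rw [mul_smul]
        change y⁻¹ • ((z : G) • q) = r
        have hz' : (z : G) • q = y • r := hz
        rw [hz', inv_smul_smul]
      · intro r hr
        exact hfree r (Finset.mem_sdiff.mp hr).1
      · rw [Finset.sum_image]
        · refine ⟨Fn q, ?_⟩
          rw [LinearMap.sum_apply]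
          refine Finset.sum_congr ?_ fun y _ => (hF y y.2 q).symm
          ext
          simp
        · intro y _ z _ hyz
          have hyz' : (y : G) • q = (z : G) • q := hyz
          have h1 : ((z : G)⁻¹ * y) • q = q := by
            rw [mul_smul, hyz', inv_smul_smul]
          have h2 := hfree q hq _ (P.mul_mem (P.inv_mem z.2) y.2) h1
          exact Subtype.ext (inv_mul_eq_one.mp h2).symm

/-- an element which conjugates a nontrivial element of `P` into the normalizer is in the normalizer -/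
theorem nfix [Finite G] {p : ℕ} [hp : Fact p.Prime] (P : Sylow p G) (hP : Nat.card P = p) (y g : G)
    (hy : y ∈ P) (hy1 : y ≠ 1) (h : g⁻¹ * y * g ∈ NN P) : g ∈ NN P := by
  have hPc : ∀ x ∈ P, ∀ z ∈ P, x ≠ 1 → ∃ i : ℕ, x ^ i = z := by
    intro x hx z hz hx1
    have := mem_powers_of_prime_card (G := P) (p := p) hP (g := ⟨x, hx⟩) (g' := ⟨z, hz⟩)
      (fun h => hx1 (congrArg Subtype.val h))
    obtain ⟨i, hi⟩ := this
    exact ⟨i, congrArg Subtype.val hi⟩
  have hyp : y ^ p = 1 := by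
    have h1 : (⟨y, hy⟩ : P) ^ Nat.card P = 1 := pow_card_eq_one'
    rw [hP] at h1
    exact congrArg Subtype.val h1
  -- `g⁻¹ y g ∈ P`
  have h1 : g⁻¹ * y * g ∈ P := by
    have hz : IsPGroup p (Subgroup.zpowers (g⁻¹ * y * g)) := by
      intro z
      obtain ⟨i, hi⟩ := Subgroup.mem_zpowers_iff.mp z.2
      refine ⟨1, Subtype.ext ?_⟩
      change (z : G) ^ p ^ 1 = 1
      have e : g⁻¹ * y * g = g⁻¹ * y * (g⁻¹)⁻¹ := by rw [inv_inv]
      rw [← hi, pow_one, ← zpow_natCast, ← zpow_mul, mul_comm, zpow_mul, zpow_natCast, e, conj_pow, hyp]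
      simp
    have h2 : IsPGroup p (Subgroup.zpowers (g⁻¹ * y * g) ⊔ (P : Subgroup G) : Subgroup G) :=
      IsPGroup.to_sup_of_normal_right' hz P.2 (by
        rw [Subgroup.zpowers_le]
        exact h)
    have h3 := P.3 h2 le_sup_right
    have h4 : g⁻¹ * y * g ∈ (Subgroup.zpowers (g⁻¹ * y * g) ⊔ (P : Subgroup G) : Subgroup G) :=
      Subgroup.mem_sup_left (Subgroup.mem_zpowers _)
    rw [h3] at h4
    exact h4
  have h1' : g⁻¹ * y * g ≠ 1 := by
    intro h2
    apply hy1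
    calc y = g * (g⁻¹ * y * g) * g⁻¹ := by group
      _ = 1 := by rw [h2]; group
  change g ∈ Subgroup.normalizer _
  rw [Subgroup.mem_normalizer_iff'']
  intro x
  constructor
  · intro hx
    obtain ⟨i, rfl⟩ := hPc y hy x hx hy1
    have e : g⁻¹ * y ^ i * g = (g⁻¹ * y * g) ^ i := by
      have e1 : g⁻¹ * y * g = g⁻¹ * y * (g⁻¹)⁻¹ := by rw [inv_inv]
      rw [e1, conj_pow, inv_inv]
    rw [e]
    exact P.pow_mem h1 i
  · intro hx
    obtain ⟨i, hi⟩ := hPc _ h1 _ hx h1'
    have e : g⁻¹ * y ^ i * g = (g⁻¹ * y * g) ^ i := by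
      have e1 : g⁻¹ * y * g = g⁻¹ * y * (g⁻¹)⁻¹ := by rw [inv_inv]
      rw [e1, conj_pow, inv_inv]
    rw [← e] at hi
    have h2 : y ^ i = x := by
      have := mul_right_cancel hi
      exact mul_left_cancel this
    rw [← h2]
    exact P.pow_mem hy i

/-- endomorphisms over the normalizer act as scalars on `V^P / (∑ x) V` -/
theorem scal [IsAlgClosed F] [Finite G] [FiniteDimensional F V] {p : ℕ} [hp : Fact p.Prime]
    (P : Sylow p G) (hP : Nat.card P = p) (ρ : Representation F G V) (hi : ρ.IsIrreducible)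
    (η : V →ₗ[F] V) (hη : ∀ h ∈ NN P, ∀ v, ρ h (η v) = η (ρ h v)) :
    ∃ c : F, ∀ v ∈ FP ρ P, η v - c • v ∈ TP ρ P := by
  letI := Fintype.ofFinite (G ⧸ NN P)
  obtain ⟨c, hc⟩ := schurF ρ hi (rT ρ η (NN P) hη) (fun h v => rT_comm ρ η (NN P) hη h v)
  refine ⟨c, fun v hv => ?_⟩
  have h1 := hc v
  rw [rT_apply, ← Finset.add_sum_erase _ _ (Finset.mem_univ ((1 : G) : G ⧸ NN P)), cq_mk, cj_apply,
    inv_one, map_one] at h1
  change η v + _ = c • v at h1
  rw [← h1]
  have h2 : ∑ q ∈ Finset.univ.erase ((1 : G) : G ⧸ NN P), cq ρ η (NN P) hη q v ∈ TP ρ P := by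
    refine orb_sum (P : Subgroup G) ρ (G ⧸ NN P) (fun q => cq ρ η (NN P) hη q v) ?_ _ _ rfl ?_ ?_
    · intro y hy q
      have := cq_smul ρ η (NN P) hη y q v
      rw [hv y hy] at this
      exact this
    · intro y hy q hq
      rw [Finset.mem_erase] at hq ⊢
      refine ⟨fun h => hq.1 ?_, Finset.mem_univ _⟩
      have hyN : y⁻¹ ∈ NN P := (NN P).inv_mem (Subgroup.le_normalizer hy)
      have e : q = y⁻¹ • ((1 : G) : G ⧸ NN P) := by rw [← h, inv_smul_smul]
      rw [e]
      change ((y⁻¹ * 1 : G) : G ⧸ NN P) = ((1 : G) : G ⧸ NN P)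
      rw [mul_one, QuotientGroup.eq, inv_inv, mul_one]
      exact Subgroup.le_normalizer hy
    · intro q hq y hy hyq
      by_contra hy1
      obtain ⟨g, rfl⟩ := QuotientGroup.mk_surjective q
      apply (Finset.mem_erase.mp hq).1
      have h3 : ((y * g : G) : G ⧸ NN P) = (g : G ⧸ NN P) := hyq
      have h4 : g⁻¹ * y * g ∈ NN P := by
        have := QuotientGroup.eq.mp h3.symm
        rwa [← mul_assoc] at this
      have h5 := nfix P hP y g hy hy1 h4
      rw [QuotientGroup.eq, mul_one]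
      exact (NN P).inv_mem h5
  have e : η v - (η v + ∑ q ∈ Finset.univ.erase ((1 : G) : G ⧸ NN P), cq ρ η (NN P) hη q v) =
      -∑ q ∈ Finset.univ.erase ((1 : G) : G ⧸ NN P), cq ρ η (NN P) hη q v := by abel
  rw [e]
  exact (TP ρ P).neg_mem h2

end Pool.Agent.K3h69.IN
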