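import Pool.Agent.K3h69.IN.M4a

/-!
# Modular representations: endomorphisms over a group of order `p`
-/

set_option autoImplicit false

open scoped BigOperators Classical

noncomputable section

namespace Pool.Agent.K3h69.IN

open Pool.Agent.K3h83.IN Pool.Agent.K3h3.MK

section lin

variable {F V : Type} [Field F] [AddCommGroup V] [Module F V]

/-- extension of a map on the kernel of `X` to an endomorphism commuting with `X` -/
theorem lift_end (X : Module.End F V) (j : ℕ) (π : Module.End F V)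
    (h1 : ∀ v, X (π v) = 0) (h2 : ∀ v, ∃ w, (X ^ j) w = π v)
    (h3 : ∀ v, π ((X ^ (j + 1)) v) = 0) :
    ∃ Φ : Module.End F V, (∀ v, Φ (X v) = X (Φ v)) ∧ ∀ v, X v = 0 → Φ v = π v := by
  obtain ⟨r, hr⟩ := (X ^ j).rangeRestrict.exists_rightInverse_of_surjective
    (LinearMap.range_rangeRestrict _)
  let t : Module.End F V := r ∘ₗ (π.codRestrict (LinearMap.range (X ^ j)) fun v => h2 v)
  have ht1 : ∀ v, (X ^ j) (t v) = π v := by
    intro v
    have := congrArg (fun f : _ →ₗ[F] _ => (f ⟨π v, h2 v⟩ : LinearMap.range (X ^ j)).1) hr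
    exact this
  have ht2 : ∀ v, π v = 0 → t v = 0 := by
    intro v hv
    change r ⟨π v, h2 v⟩ = 0
    have : (⟨π v, h2 v⟩ : LinearMap.range (X ^ j)) = 0 := Subtype.ext hv
    rw [this, map_zero]
  have ha : X ^ (j + 1) * t = 0 := by
    ext v
    rw [pow_succ', mul_assoc, Module.End.mul_apply, Module.End.mul_apply, ht1, h1]
    rfl
  have hb : t * X ^ (j + 1) = 0 := by
    ext v
    rw [Module.End.mul_apply, ht2 _ (h3 v)]
    rfl
  let Φ : Module.End F V := ∑ i ∈ Finset.range (j + 1), X ^ i * t * X ^ (j - i)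
  have hΦ : Φ * X = X * Φ := by
    rw [Finset.sum_mul, Finset.mul_sum, Finset.sum_range_succ', Finset.sum_range_succ]
    have e1 : X ^ 0 * t * X ^ (j - 0) * X = 0 := by
      rw [pow_zero, one_mul, Nat.sub_zero, mul_assoc, ← pow_succ, hb]
    have e2 : X * (X ^ j * t * X ^ (j - j)) = 0 := by
      rw [Nat.sub_self, pow_zero, mul_one, ← mul_assoc, ← pow_succ', ha]
    rw [e1, e2, add_zero, add_zero]
    refine Finset.sum_congr rfl fun i hi => ?_
    rw [Finset.mem_range] at hi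
    have e3 : j - i = (j - (i + 1)) + 1 := by omega
    rw [e3, pow_succ X (j - (i + 1)), pow_succ' X i]
    simp only [mul_assoc]
  refine ⟨Φ, fun v => ?_, fun v hv => ?_⟩
  · have := congrArg (fun f : Module.End F V => f v) hΦ
    exact this
  · change (∑ i ∈ Finset.range (j + 1), X ^ i * t * X ^ (j - i)) v = π v
    rw [LinearMap.sum_apply, Finset.sum_range_succ, Finset.sum_eq_zero, zero_add]
    · rw [Nat.sub_self, pow_zero, mul_one, Module.End.mul_apply, ht1]
    · intro i hi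
      rw [Finset.mem_range] at hi
      have e3 : j - i = (j - (i + 1)) + 1 := by omega
      rw [e3, pow_succ X (j - (i + 1)), Module.End.mul_apply, Module.End.mul_apply,
        Module.End.mul_apply, hv, map_zero, map_zero, map_zero]

/-- a projection onto a complement -/
theorem exists_proj (B E Y : Submodule F V) (hBY : B ≤ Y)
    (hEY : ∀ v ∈ E, v ∈ Y → v ∈ B) : ∃ π : Module.End F V, (∀ v, π v ∈ E) ∧ (∀ v ∈ Y, π v = 0) ∧
      ∀ v ∈ B ⊔ E, π v - v ∈ B := by
  obtain ⟨Q, hQ⟩ := Submodule.exists_isCompl (E ⊓ B)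
  let C : Submodule F V := E ⊓ Q
  let k : C →ₗ[F] V ⧸ Y := Y.mkQ ∘ₗ C.subtype
  have hk : LinearMap.ker k = ⊥ := by
    rw [LinearMap.ker_eq_bot']
    intro c hc
    have h1 : (c : V) ∈ Y := (Submodule.Quotient.mk_eq_zero Y).mp hc
    have h2 : (c : V) ∈ E ⊓ B := ⟨c.2.1, hEY _ c.2.1 h1⟩
    have h3 : (c : V) ∈ (E ⊓ B) ⊓ Q := ⟨h2, c.2.2⟩
    rw [hQ.inf_eq_bot, Submodule.mem_bot] at h3
    exact Subtype.ext h3
  obtain ⟨l, hl⟩ := k.exists_leftInverse_of_injective hk
  have hlc : ∀ c : C, l (Y.mkQ c) = c := fun c => congrArg (fun f : C →ₗ[F] C => f c) hl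
  refine ⟨C.subtype ∘ₗ l ∘ₗ Y.mkQ, fun v => (l (Y.mkQ v)).2.1, fun v hv => ?_, fun v hv => ?_⟩
  · change ((l (Y.mkQ v) : C) : V) = 0
    have : Y.mkQ v = 0 := (Submodule.Quotient.mk_eq_zero Y).mpr hv
    rw [this, map_zero]
    rfl
  · obtain ⟨b, hb, e, he, rfl⟩ := Submodule.mem_sup.mp hv
    obtain ⟨a, ha, c, hc, hac⟩ : ∃ a ∈ E ⊓ B, ∃ c ∈ Q, a + c = e := by
      have : e ∈ (E ⊓ B) ⊔ Q := by
        rw [hQ.sup_eq_top]
        trivial
      exact Submodule.mem_sup.mp this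
    have hcE : c ∈ E := by
      have : c = e - a := by rw [← hac]; abel
      rw [this]
      exact E.sub_mem he ha.1
    have h1 : l (Y.mkQ (b + e)) = ⟨c, hcE, hc⟩ := by
      have h2 : Y.mkQ (b + e) = Y.mkQ ((⟨c, hcE, hc⟩ : C) : V) := by
        rw [← sub_eq_zero, ← map_sub]
        refine (Submodule.Quotient.mk_eq_zero Y).mpr ?_
        have : b + e - c = b + a := by rw [← hac]; abel
        rw [this]
        exact Y.add_mem (hBY hb) (hBY ha.2)
      rw [h2, hlc]
    change ((l (Y.mkQ (b + e)) : C) : V) - (b + e) ∈ B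
    rw [h1]
    have : c - (b + e) = -(b + a) := by rw [← hac]; abel
    rw [this]
    exact B.neg_mem (B.add_mem hb ha.2)

end lin

variable {F G V : Type} [Field F] [Group G] [AddCommGroup V] [Module F V]

theorem FP_stable {p : ℕ} (P : Sylow p G) (ρ : Representation F G V) (k : G) (hk : k ∈ NN P) (v : V)
    (hv : v ∈ FP ρ P) : ρ k v ∈ FP ρ P := by
  intro x hx
  have h1 : k⁻¹ * x * k ∈ P := (Subgroup.mem_normalizer_iff''.mp hk x).mp hx
  have h2 : ρ (k⁻¹ * x * k) v = v := hv _ h1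
  rw [← rho_mul]
  have e : x * k = k * (k⁻¹ * x * k) := by group
  rw [e, rho_mul, h2]

theorem mem_TP [Finite G] (P : Subgroup G) [Fintype P] (ρ : Representation F G V) (v : V) :
    v ∈ TP ρ P ↔ ∃ w, ∑ x : P, ρ (x : G) w = v := by
  constructor
  · rintro ⟨w, hw⟩
    refine ⟨w, ?_⟩
    rw [← hw, LinearMap.sum_apply]
    refine Finset.sum_congr ?_ fun _ _ => rfl
    ext
    simp only [Finset.mem_univ]
  · rintro ⟨w, hw⟩
    refine ⟨w, ?_⟩
    rw [← hw, LinearMap.sum_apply]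
    refine Finset.sum_congr ?_ fun _ _ => rfl
    ext
    simp only [Finset.mem_univ]

theorem TP_le [Finite G] (P : Subgroup G) (ρ : Representation F G V) (v : V)
    (hv : v ∈ TP ρ P) : v ∈ FP ρ P := by
  letI := Fintype.ofFinite P
  obtain ⟨w, rfl⟩ := (mem_TP P ρ v).mp hv
  intro x hx
  rw [map_sum, ← Equiv.sum_comp (Equiv.mulLeft (⟨x, hx⟩ : P)) (fun y : P => ρ (y : G) w)]
  refine Finset.sum_congr rfl fun y _ => ?_
  rw [← rho_mul]
  rfl

theorem TP_stable [Finite G] {p : ℕ} (P : Sylow p G) (ρ : Representation F G V) (k : G)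
    (hk : k ∈ NN P) (v : V) (hv : v ∈ TP ρ P) : ρ k v ∈ TP ρ P := by
  letI := Fintype.ofFinite (P : Subgroup G)
  obtain ⟨w, rfl⟩ := (mem_TP (P : Subgroup G) ρ v).mp hv
  refine (mem_TP (P : Subgroup G) ρ _).mpr ⟨ρ k w, ?_⟩
  let e : (P : Subgroup G) ≃ (P : Subgroup G) :=
    { toFun := fun x => ⟨k * x * k⁻¹, (Subgroup.mem_normalizer_iff.mp hk x).mp x.2⟩
      invFun := fun x => ⟨k⁻¹ * x * k, (Subgroup.mem_normalizer_iff''.mp hk x).mp x.2⟩
      left_inv := fun x => Subtype.ext (by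
        change k⁻¹ * (k * x * k⁻¹) * k = x
        group)
      right_inv := fun x => Subtype.ext (by
        change k * (k⁻¹ * x * k) * k⁻¹ = x
        group) }
  rw [map_sum, ← Equiv.sum_comp e (fun y : (P : Subgroup G) => ρ (y : G) (ρ k w))]
  refine Finset.sum_congr rfl fun y _ => ?_
  change ρ (k * y * k⁻¹) (ρ k w) = ρ k (ρ y w)
  rw [← rho_mul, ← rho_mul]
  congr 2
  group

theorem gen {p : ℕ} [hp : Fact p.Prime] (P : Sylow p G) (hP : Nat.card P = p) (x₀ : G)
    (hx : x₀ ∈ P) (hx1 : x₀ ≠ 1) (z : G) (hz : z ∈ P) : ∃ i : ℕ, x₀ ^ i = z := by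
  have := mem_powers_of_prime_card (G := P) (p := p) hP (g := ⟨x₀, hx⟩) (g' := ⟨z, hz⟩)
    (fun h => hx1 (congrArg Subtype.val h))
  obtain ⟨i, hi⟩ := this
  exact ⟨i, congrArg Subtype.val hi⟩

theorem FP_iff {p : ℕ} [hp : Fact p.Prime] (P : Sylow p G) (hP : Nat.card P = p)
    (ρ : Representation F G V) (x₀ : G) (hx : x₀ ∈ P) (hx1 : x₀ ≠ 1) (v : V) :
    v ∈ FP ρ P ↔ (ρ x₀ - 1 : Module.End F V) v = 0 := by
  rw [LinearMap.sub_apply, Module.End.one_apply, sub_eq_zero]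
  constructor
  · intro h
    exact h x₀ hx
  · intro h z hz
    obtain ⟨i, rfl⟩ := gen P hP x₀ hx hx1 z hz
    induction i with
    | zero =>
      rw [pow_zero, map_one]
      rfl
    | succ i ih =>
      rw [pow_succ, rho_mul, h]
      exact ih (P.pow_mem hx i)

theorem range_stable {p : ℕ} [hp : Fact p.Prime] (P : Sylow p G) (hP : Nat.card P = p)
    (ρ : Representation F G V) (x₀ : G) (hx : x₀ ∈ P) (hx1 : x₀ ≠ 1) (k : G) (hk : k ∈ NN P)
    (j : ℕ) (v : V) : ∃ w, ρ k (((ρ x₀ - 1 : Module.End F V) ^ j) v) =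
      ((ρ x₀ - 1 : Module.End F V) ^ j) w := by
  have h1 : k * x₀ * k⁻¹ ∈ P := (Subgroup.mem_normalizer_iff.mp hk x₀).mp hx
  obtain ⟨a, ha⟩ := gen P hP x₀ hx hx1 _ h1
  let T : Module.End F V := ρ x₀
  let u : Module.End F V := ∑ i ∈ Finset.range a, T ^ i
  have hu : (T - 1) * u = T ^ a - 1 := mul_geom_sum T a
  have huc : Commute u (T - 1) := by
    refine Commute.sub_right ?_ (Commute.one_right _)
    exact Commute.sum_left _ _ _ fun i _ => (Commute.refl T).pow_left i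
  have hkX : ∀ w, ρ k ((T - 1) w) = (T - 1) (u (ρ k w)) := by
    intro w
    have e1 : (T - 1) (u (ρ k w)) = (T ^ a - 1) (ρ k w) := by
      rw [← hu]
      rfl
    rw [e1, LinearMap.sub_apply, LinearMap.sub_apply, Module.End.one_apply, Module.End.one_apply,
      map_sub, ← rho_mul]
    have e2 : T ^ a = ρ (x₀ ^ a) := (map_pow ρ x₀ a).symm
    rw [e2, ha, ← rho_mul]
    congr 3
    group
  induction j with
  | zero => exact ⟨ρ k v, rfl⟩
  | succ j ih =>
    obtain ⟨w, hw⟩ := ih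
    refine ⟨u w, ?_⟩
    change ρ k (((T - 1) ^ (j + 1)) v) = ((T - 1) ^ (j + 1)) (u w)
    have hw' : ρ k (((T - 1) ^ j) v) = ((T - 1) ^ j) w := hw
    rw [pow_succ', Module.End.mul_apply, Module.End.mul_apply, hkX, hw', ← Module.End.mul_apply u,
      (huc.pow_right j).eq, Module.End.mul_apply]

theorem X_pow {p : ℕ} [hp : Fact p.Prime] [CharP F p] (ρ : Representation F G V) (x₀ : G)
    (hx : x₀ ^ p = 1) : (ρ x₀ - 1 : Module.End F V) ^ p = 0 := by
  have h1 : (Polynomial.X - 1 : Polynomial F) ^ p = Polynomial.X ^ p - 1 := by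
    rw [sub_pow_char, one_pow]
  have h2 := congrArg (Polynomial.aeval (ρ x₀ : Module.End F V)) h1
  rw [map_pow, map_sub, map_sub, map_pow, Polynomial.aeval_X, map_one] at h2
  rw [h2]
  have h3 : (ρ x₀ : Module.End F V) ^ p = ρ (x₀ ^ p) := (map_pow ρ x₀ p).symm
  rw [h3, hx, map_one, sub_self]

end Pool.Agent.K3h69.IN
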