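import Pool.Agent.K3h69.IN.T10c

/-!
# The base case
-/

set_option autoImplicit false

open scoped BigOperators Classical

noncomputable section

namespace Pool.Agent.K3h69.IN

open Pool.Agent.K3h83.IN

/-- the representation of the product of `⟨S⟩` with a group of operators commuting with `S` -/
def rep {V : Type} [AddCommGroup V] [Module ℂ V] (S : V ≃ₗ[ℂ] V) (Y : Type) [Group Y]
    (g : Y →* (V ≃ₗ[ℂ] V))
    (hc : ∀ (c : Subgroup.zpowers S) (y : Y), Commute ((Subgroup.zpowers S).subtype c) (g y)) :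
    Representation ℂ (Subgroup.zpowers S × Y) V :=
  (LinearEquiv.automorphismGroup.toLinearMapMonoidHom).comp
    ((Subgroup.zpowers S).subtype.noncommCoprod g hc)

theorem rep_char {V : Type} [AddCommGroup V] [Module ℂ V] (S : V ≃ₗ[ℂ] V) (Y : Type) [Group Y]
    (g : Y →* (V ≃ₗ[ℂ] V))
    (hc : ∀ (c : Subgroup.zpowers S) (y : Y), Commute ((Subgroup.zpowers S).subtype c) (g y))
    (c : Subgroup.zpowers S) (y : Y) :
    (rep S Y g hc).character (c, y) = tr ((c : V ≃ₗ[ℂ] V) * g y) := rfl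

theorem t_T10 (h1 : T1) (h7 : T7) (h8 : T8) (h9 : T9) (h17 : S17) : T10 := by
  intro p q _ _ M X _ _ _ _ φ E R hS x hx hE V _ _ _ σ hi hf
  by_cases hM : Subgroup.center M = ⊤
  · refine ⟨1, fun r m v => ?_, fun r _ => rfl⟩
    change σ m v = σ (φ r m) v
    rw [hS.cen r m (by rw [hM]; trivial)]
  haveI := Pool.Agent.H254R3.IN.irr_nontrivial σ hi
  obtain ⟨k, hk⟩ := dim_pow q hS.sy σ hi hf
  have hc := cop_dim hS.ne _ k hk
  obtain ⟨S, hSx, hSd, hSp⟩ := ex_S h7 p q φ E R hS σ hi hf x hx hc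
  have hS1 : S ≠ 1 := S_ne p q φ E R hS σ hf x hE hM S hSx
  haveI hfin := Rh_fin φ R σ hi
  have hpg := Rh_p q φ R σ hi hS.Rq k hk
  have hconj : ∀ a : Rh φ R σ, a.1.2⁻¹ * S * a.1.2 ∈ Subgroup.zpowers S := fun a =>
    conj_S p q φ E R hS σ hi x hx hE hc S hSx hSd hSp a.1.1 a.1.1.2 a.1.2 (mem_Rh.mp a.2).1
  have hord : orderOf S = p := orderOf_eq_prime hSp hS1
  -- the projection to the operators
  let π : Rh φ R σ →* (V ≃ₗ[ℂ] V) := (MonoidHom.snd R (V ≃ₗ[ℂ] V)).comp (Rh φ R σ).subtype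
  let R0 : Subgroup (Rh φ R σ) :=
    (Subgroup.centralizer (Subgroup.zpowers S : Set (V ≃ₗ[ℂ] V))).comap π
  have hR0 : ∀ a : Rh φ R σ, a ∈ R0 ↔ π a * S = S * π a := by
    intro a
    change π a ∈ Subgroup.centralizer (Subgroup.zpowers S : Set (V ≃ₗ[ℂ] V)) ↔ _
    rw [Subgroup.mem_centralizer_iff]
    constructor
    · intro h
      exact (h S (Subgroup.mem_zpowers S)).symm
    · intro h c hc'
      obtain ⟨i, rfl⟩ := Subgroup.mem_zpowers_iff.mp hc'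
      have h2 : Commute (π a) S := h
      exact ((h2.zpow_right i).eq).symm
  have hcomm : ∀ (c : Subgroup.zpowers S) (y : R0),
      Commute ((Subgroup.zpowers S).subtype c) ((π.comp R0.subtype) y) := by
    intro c y
    have h2 : Commute (π y) S := (hR0 y).mp y.2
    obtain ⟨i, hi2⟩ := Subgroup.mem_zpowers_iff.mp c.2
    change Commute (c : V ≃ₗ[ℂ] V) (π y)
    rw [← hi2]
    exact (h2.zpow_right i).symm
  haveI hfC : Finite (Subgroup.zpowers S) := by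
    apply Nat.finite_of_card_ne_zero
    rw [Nat.card_zpowers, hord]
    exact (Fact.out : p.Prime).ne_zero
  obtain ⟨ψ, f, hψf⟩ := h9 p (Subgroup.zpowers S) R0 V (rep S R0 (π.comp R0.subtype) hcomm)
    (by rw [Nat.card_zpowers, hord]) (by
      intro c y hc1
      rw [rep_char, rep_char]
      have hc1' : (c : V ≃ₗ[ℂ] V) ≠ 1 := fun h => hc1 (Subtype.ext h)
      have hy : Commute S (π y) := ((hR0 y).mp y.2).symm
      have h2 := key h1 h8 p q φ E R hS σ hi hf x hx hE hpg S hSx hSp c c.2 hc1' y hy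
      have h3 : ((c⁻¹ : Subgroup.zpowers S) : V ≃ₗ[ℂ] V) * (π.comp R0.subtype) y⁻¹ =
          ((c : V ≃ₗ[ℂ] V) * (y : Rh φ R σ).1.2)⁻¹ := by
        have h4 : Commute (c : V ≃ₗ[ℂ] V) (π y) := hcomm c y
        rw [map_inv]
        change (c : V ≃ₗ[ℂ] V)⁻¹ * (π y)⁻¹ = ((c : V ≃ₗ[ℂ] V) * π y)⁻¹
        rw [h4.eq, mul_inv_rev]
      rw [h3]
      exact h2)
  -- the values
  have hval : ∀ (c : V ≃ₗ[ℂ] V) (hc : c ∈ Subgroup.zpowers S) (_ : c ≠ 1) (y : R0),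
      f ⟨c, hc⟩ ≠ 0 ∧ tr (c * π y) = f ⟨c, hc⟩ * ((ψ y : ℂˣ) : ℂ) := by
    intro c hc hc1 y
    have := hψf ⟨c, hc⟩ y (fun h => hc1 (congrArg Subtype.val h))
    rw [rep_char] at this
    exact this
  have hSm := Subgroup.mem_zpowers S
  -- scalars
  have hsc : ∀ (y : R0) (c : ℂˣ), π y = sc c → ψ y = c := by
    intro y c hy
    have h2 := hval S hSm hS1 y
    have h3 := hval S hSm hS1 1
    rw [hy, ← sc_comm, tr_sc] at h2
    rw [map_one, Units.val_one, mul_one] at h3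
    have h4 : π ((1 : R0) : Rh φ R σ) = 1 := map_one π
    rw [h4, mul_one] at h3
    rw [h3.2, mul_comm] at h2
    ext
    exact (mul_left_cancel₀ h2.1 h2.2).symm
  -- invariance
  have hinv : ∀ (a : Rh φ R σ) (z z' : R0), (z' : Rh φ R σ) = a * z * a⁻¹ → ψ z' = ψ z := by
    intro a z z' hz
    have hc' := hconj a
    have hc1 : (π a)⁻¹ * S * π a ≠ 1 := by
      intro h
      apply hS1
      calc S = π a * ((π a)⁻¹ * S * π a) * (π a)⁻¹ := by group
        _ = 1 := by rw [h, mul_one, mul_inv_cancel]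
    have hf1 : ∀ (z z' : R0), (z' : Rh φ R σ) = a * z * a⁻¹ →
        tr (S * π z') = tr (((π a)⁻¹ * S * π a) * π z) := by
      intro z z' hz
      rw [hz, map_mul, map_mul, map_inv]
      rw [show S * (π a * π z * (π a)⁻¹) = (S * (π a * π z)) * (π a)⁻¹ by simp only [mul_assoc],
        tr_comm (S * (π a * π z)) (π a)⁻¹]
      simp only [mul_assoc]
    have e1 := hf1 z z' hz
    have e2 := hf1 1 1 (by
      change (1 : Rh φ R σ) = a * 1 * a⁻¹
      rw [mul_one, mul_inv_cancel])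
    have v1 := hval S hSm hS1 z'
    have v2 := hval S hSm hS1 1
    have v3 := hval _ hc' hc1 z
    have v4 := hval _ hc' hc1 1
    rw [map_one, Units.val_one, mul_one] at v2 v4
    rw [v2.2] at e2
    have e3 : f ⟨S, hSm⟩ = f ⟨(π a)⁻¹ * S * π a, hc'⟩ := by
      rw [e2]
      exact v4.2
    have e4 : f ⟨S, hSm⟩ * ((ψ z' : ℂˣ) : ℂ) = f ⟨(π a)⁻¹ * S * π a, hc'⟩ * ((ψ z : ℂˣ) : ℂ) := by
      rw [← v1.2, e1]
      exact v3.2
    rw [← e3] at e4
    ext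
    exact mul_left_cancel₀ v1.1 e4
  obtain ⟨ω, hω⟩ := ext_lem h17 π S p hord (by
    intro a
    have := hconj a⁻¹
    change (π a⁻¹)⁻¹ * S * π a⁻¹ ∈ _ at this
    rw [map_inv, inv_inv] at this
    exact this) R0 hR0 ψ hinv
  -- scalars in the group of lifts
  have hωs : ∀ (a : Rh φ R σ) (c : ℂˣ), π a = sc c → ω a = c := by
    intro a c ha
    have ha0 : a ∈ R0 := by
      rw [hR0, ha, sc_comm]
    have := hω ⟨a, ha0⟩
    rw [hsc ⟨a, ha0⟩ c ha] at this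
    exact this
  have hex : ∀ y : R, ∃ T : V ≃ₗ[ℂ] V, (y, T) ∈ Rh φ R σ := by
    intro y
    obtain ⟨T, hT1, hT2⟩ := ex_imp h7 q hS.sy σ hi hf (φ y) (fun z hz => hS.cen y z hz)
    exact ⟨T, mem_Rh.mpr ⟨hT1, hT2⟩⟩
  choose T hT using hex
  let w : R → (V ≃ₗ[ℂ] V) := fun y => sc (ω ⟨(y, T y), hT y⟩)⁻¹ * T y
  have hw : ∀ a : Rh φ R σ, w a.1.1 = sc (ω a)⁻¹ * π a := by
    intro a
    -- `a = b * (1, c)`
    let b : Rh φ R σ := ⟨(a.1.1, T a.1.1), hT a.1.1⟩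
    have h2 : (b * a⁻¹).1.1 = 1 := by
      change a.1.1 * a.1.1⁻¹ = 1
      exact mul_inv_cancel _
    have h3 := (mem_Rh.mp (b * a⁻¹).2).1
    rw [h2] at h3
    obtain ⟨c, hc1⟩ := schur' σ hi (b * a⁻¹).1.2 (by simpa using h3)
    have h4 : ω (b * a⁻¹) = c := hωs _ c hc1
    rw [map_mul, map_inv] at h4
    have h5 : π b = sc c * π a := by
      have : π (b * a⁻¹) = sc c := hc1
      rw [map_mul, map_inv] at this
      rw [← this, inv_mul_cancel_right]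
    change sc (ω b)⁻¹ * π b = _
    have h6 : ω b = c * ω a := by rw [← h4, inv_mul_cancel_right]
    rw [h5, h6, mul_inv_rev, map_mul, mul_assoc, ← mul_assoc (sc c⁻¹), ← map_mul, inv_mul_cancel,
      map_one, one_mul]
  have hw1 : w 1 = 1 := by
    have := hw 1
    rw [map_one, map_one, inv_one, map_one, one_mul] at this
    exact this
  have hwm : ∀ y z : R, w (y * z) = w y * w z := by
    intro y z
    have := hw (⟨(y, T y), hT y⟩ * ⟨(z, T z), hT z⟩)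
    have e1 : w (y * z) = sc (ω (⟨(y, T y), hT y⟩ * ⟨(z, T z), hT z⟩))⁻¹ *
      π (⟨(y, T y), hT y⟩ * ⟨(z, T z), hT z⟩) := this
    rw [e1, map_mul, map_mul, mul_inv_rev, map_mul]
    change _ * (T y * T z) = (sc (ω ⟨(y, T y), hT y⟩)⁻¹ * T y) * (sc (ω ⟨(z, T z), hT z⟩)⁻¹ * T z)
    rw [mul_assoc (sc (ω ⟨(y, T y), hT y⟩)⁻¹) (T y), ← mul_assoc (T y), ← sc_comm _ (T y),
      mul_assoc _ (T y), ← mul_assoc (sc (ω ⟨(y, T y), hT y⟩)⁻¹), sc_comm (ω ⟨(y, T y), hT y⟩)⁻¹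
      (sc (ω ⟨(z, T z), hT z⟩)⁻¹)]
  let W : R →* (V ≃ₗ[ℂ] V) := { toFun := w, map_one' := hw1, map_mul' := hwm }
  refine ⟨(LinearEquiv.automorphismGroup.toLinearMapMonoidHom).comp W, ?_, ?_⟩
  · intro r m v
    change w r (σ m v) = σ (φ r m) (w r v)
    change ((ω ⟨(r, T r), hT r⟩)⁻¹ : ℂˣ).1 • (T r (σ m v)) =
      σ (φ r m) (((ω ⟨(r, T r), hT r⟩)⁻¹ : ℂˣ).1 • (T r v))
    rw [map_smul]
    congr 1
    exact (mem_Rh.mp (hT r)).1 m v
  · intro r hr
    have hφ : φ (r : X) = 1 := by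
      ext m
      exact hr m
    have hm : (r, (1 : V ≃ₗ[ℂ] V)) ∈ Rh φ R σ := by
      rw [mem_Rh]
      refine ⟨?_, map_one _⟩
      change (φ (r : X), (1 : V ≃ₗ[ℂ] V)) ∈ Gp σ
      rw [hφ]
      exact (Gp σ).one_mem
    have h2 := hw ⟨_, hm⟩
    have h3 : ω ⟨_, hm⟩ = 1 := hωs _ 1 (by rw [map_one]; rfl)
    rw [h3, inv_one, map_one, one_mul] at h2
    change ((w r : V ≃ₗ[ℂ] V) : V →ₗ[ℂ] V) = 1
    have h4 : w r = 1 := h2
    rw [h4]
    rfl

end Pool.Agent.K3h69.IN
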