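import Pool.Agent.K3h83.IN.Stm3

/-!
# The base case: preparations
-/

set_option autoImplicit false

open scoped BigOperators Classical

noncomputable section

namespace Pool.Agent.K3h69.IN

open Pool.Agent.K3h83.IN

variable {M V : Type} [Group M] [AddCommGroup V] [Module ℂ V]

/-- pairs of an automorphism and an operator implementing it -/
def Gp (σ : Representation ℂ M V) : Subgroup (MulAut M × (V ≃ₗ[ℂ] V)) where
  carrier := {a | ∀ (m : M) (v : V), a.2 (σ m v) = σ (a.1 m) (a.2 v)}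
  mul_mem' := by
    intro a b ha hb m v
    change a.2 (b.2 (σ m v)) = σ (a.1 (b.1 m)) (a.2 (b.2 v))
    rw [hb, ha]
  one_mem' := fun m v => rfl
  inv_mem' := by
    intro a ha m v
    change a.2.symm (σ m v) = σ (a.1⁻¹ m) (a.2.symm v)
    rw [LinearEquiv.symm_apply_eq, ha, LinearEquiv.apply_symm_apply, ← MulAut.mul_apply,
      mul_inv_cancel, MulAut.one_apply]

theorem mem_Gp {σ : Representation ℂ M V} {a : MulAut M × (V ≃ₗ[ℂ] V)} :
    a ∈ Gp σ ↔ ∀ (m : M) (v : V), a.2 (σ m v) = σ (a.1 m) (a.2 v) := Iff.rfl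

/-- an irreducible representation faithful on the center is faithful -/
theorem faith (σ : Representation ℂ M V)
    (com : ∀ a b : M, a * b * a⁻¹ * b⁻¹ ∈ Subgroup.center M)
    (hf : ∀ z ∈ Subgroup.center M, σ z = 1 → z = 1) (m : M) (hm : σ m = 1) : m = 1 := by
  have hmi : σ m⁻¹ = 1 := by
    have := map_mul σ m⁻¹ m
    rw [inv_mul_cancel, map_one, hm, mul_one] at this
    exact this.symm
  apply hf m _ hm
  rw [Subgroup.mem_center_iff]
  intro g
  have h1 : g * m * g⁻¹ * m⁻¹ = 1 := by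
    apply hf _ (com g m)
    rw [map_mul, map_mul, map_mul, hm, mul_one, ← map_mul, mul_inv_cancel, map_one, one_mul, hmi]
  calc g * m = (g * m * g⁻¹ * m⁻¹) * (m * g) := by group
    _ = m * g := by rw [h1, one_mul]

theorem faith_inj (σ : Representation ℂ M V)
    (com : ∀ a b : M, a * b * a⁻¹ * b⁻¹ ∈ Subgroup.center M)
    (hf : ∀ z ∈ Subgroup.center M, σ z = 1 → z = 1) (m m' : M) (hm : σ m = σ m') : m = m' := by
  have h : σ (m * m'⁻¹) = 1 := by
    rw [map_mul, hm, ← map_mul, mul_inv_cancel, map_one]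
  have := faith σ com hf _ h
  exact mul_inv_eq_one.mp this

/-- an operator implements at most one automorphism -/
theorem Gp_det (σ : Representation ℂ M V)
    (com : ∀ a b : M, a * b * a⁻¹ * b⁻¹ ∈ Subgroup.center M)
    (hf : ∀ z ∈ Subgroup.center M, σ z = 1 → z = 1) (α β : MulAut M) (T : V ≃ₗ[ℂ] V)
    (h1 : (α, T) ∈ Gp σ) (h2 : (β, T) ∈ Gp σ) : α = β := by
  ext m
  apply faith_inj σ com hf
  ext v
  obtain ⟨w, rfl⟩ := T.surjective v
  have e1 := h1 m w
  have e2 := h2 m w
  rw [e1] at e2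
  exact e2

/-- scalars -/
def sc : ℂˣ →* (V ≃ₗ[ℂ] V) := DistribMulAction.toModuleAut ℂ V

theorem sc_apply (c : ℂˣ) (v : V) : (sc c : V ≃ₗ[ℂ] V) v = (c : ℂ) • v := rfl

theorem sc_comm (c : ℂˣ) (T : V ≃ₗ[ℂ] V) : sc c * T = T * sc c := by
  ext v
  change (c : ℂ) • T v = T ((c : ℂ) • v)
  rw [map_smul]

theorem sc_mem (σ : Representation ℂ M V) (c : ℂˣ) : ((1 : MulAut M), (sc c : V ≃ₗ[ℂ] V)) ∈ Gp σ := by
  intro m v
  change (c : ℂ) • (σ m v) = σ m ((c : ℂ) • v)
  rw [map_smul]

theorem sc_det (c : ℂˣ) : LinearEquiv.det (sc c : V ≃ₗ[ℂ] V) = c ^ Module.finrank ℂ V := by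
  ext
  rw [LinearEquiv.coe_det]
  have : ((sc c : V ≃ₗ[ℂ] V) : V →ₗ[ℂ] V) = (c : ℂ) • LinearMap.id := by
    ext v
    rfl
  rw [this, LinearMap.det_smul, LinearMap.det_id, mul_one, Units.val_pow_eq_pow_val]

theorem sc_inj [Nontrivial V] (c d : ℂˣ) (h : (sc c : V ≃ₗ[ℂ] V) = sc d) : c = d := by
  obtain ⟨v, hv⟩ := exists_ne (0 : V)
  have := congrArg (fun T : V ≃ₗ[ℂ] V => T v) h
  simp only [sc_apply] at this
  ext
  exact smul_left_injective ℂ hv this

/-- Schur -/
theorem schur' [FiniteDimensional ℂ V] (σ : Representation ℂ M V) (hi : σ.IsIrreducible)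
    (T : V ≃ₗ[ℂ] V) (h : ((1 : MulAut M), T) ∈ Gp σ) : ∃ c : ℂˣ, T = sc c := by
  haveI := Pool.Agent.H254R3.IN.irr_nontrivial σ hi
  obtain ⟨c, hc⟩ := Pool.Agent.H254R3.IN.schur σ hi (T : V →ₗ[ℂ] V) (fun g v => h g v)
  have hc' : ∀ v, T v = c • v := fun v => by
    have := congrArg (fun S : V →ₗ[ℂ] V => S v) hc
    simpa using this
  have hc0 : c ≠ 0 := by
    rintro rfl
    obtain ⟨v, hv⟩ := exists_ne (0 : V)
    apply hv
    apply T.injective
    rw [hc', zero_smul, map_zero]
  refine ⟨Units.mk0 c hc0, ?_⟩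
  ext v
  rw [hc', sc_apply]
  rfl

theorem irr_comp (σ : Representation ℂ M V) (hi : σ.IsIrreducible) (α : MulAut M) :
    Representation.IsIrreducible (σ.comp (α : M ≃* M).toMonoidHom : Representation ℂ M V) := by
  let e : Subrepresentation σ ≃o
      Subrepresentation (σ.comp (α : M ≃* M).toMonoidHom : Representation ℂ M V) :=
    { toFun := fun W => ⟨W.toSubmodule, fun g v hv => W.apply_mem_toSubmodule (α g) hv⟩
      invFun := fun W => ⟨W.toSubmodule, fun g v hv => by
        have := W.apply_mem_toSubmodule (α⁻¹ g) hv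
        change σ (α (α⁻¹ g)) v ∈ _ at this
        rw [← MulAut.mul_apply, mul_inv_cancel, MulAut.one_apply] at this
        exact this⟩
      left_inv := fun W => rfl
      right_inv := fun W => rfl
      map_rel_iff' := Iff.rfl }
  exact (OrderIso.isSimpleOrder_iff e).mp hi

theorem scal_center [FiniteDimensional ℂ V] (σ : Representation ℂ M V) (hi : σ.IsIrreducible)
    (z : M) (hz : z ∈ Subgroup.center M) : ∃ c : ℂ, ∀ v, σ z v = c • v := by
  obtain ⟨c, hc⟩ := Pool.Agent.H254R3.IN.schur σ hi (σ z) (fun g v => by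
    rw [← Module.End.mul_apply, ← Module.End.mul_apply, ← map_mul, ← map_mul,
      (Subgroup.mem_center_iff.mp hz g)])
  exact ⟨c, fun v => by rw [hc]; rfl⟩

/-- implementing operators exist -/
theorem ex_imp (h7 : T7) (q : ℕ) [Fact q.Prime] [Finite M] (hs : Sy q M) [FiniteDimensional ℂ V]
    (σ : Representation ℂ M V) (hi : σ.IsIrreducible)
    (hf : ∀ z ∈ Subgroup.center M, σ z = 1 → z = 1) (α : MulAut M)
    (hα : ∀ z ∈ Subgroup.center M, α z = z) :
    ∃ T : V ≃ₗ[ℂ] V, (α, T) ∈ Gp σ ∧ LinearEquiv.det T = 1 := by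
  haveI := Pool.Agent.H254R3.IN.irr_nontrivial σ hi
  obtain ⟨T, hT⟩ := h7 q M hs V V σ (σ.comp (α : M ≃* M).toMonoidHom) hi (irr_comp σ hi α) hf
    (fun z hz => by
      obtain ⟨c, hc⟩ := scal_center σ hi z hz
      refine ⟨c, hc, fun v => ?_⟩
      change σ (α z) v = _
      rw [hα z hz, hc])
  have hT' : (α, T) ∈ Gp σ := fun m v => hT m v
  have hn : 0 < Module.finrank ℂ V := Module.finrank_pos
  obtain ⟨c, hc⟩ := IsAlgClosed.exists_pow_nat_eq (((LinearEquiv.det T)⁻¹ : ℂˣ) : ℂ) hn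
  have hc0 : c ≠ 0 := by
    rintro rfl
    rw [zero_pow hn.ne'] at hc
    exact Units.ne_zero _ hc.symm
  refine ⟨sc (Units.mk0 c hc0) * T, ?_, ?_⟩
  · have := (Gp σ).mul_mem (sc_mem σ (Units.mk0 c hc0)) hT'
    simpa using this
  · rw [map_mul, sc_det]
    have : (Units.mk0 c hc0) ^ Module.finrank ℂ V = (LinearEquiv.det T)⁻¹ := by
      ext
      rw [Units.val_pow_eq_pow_val, Units.val_mk0, hc]
    rw [this, inv_mul_cancel]

theorem char_zero_off [FiniteDimensional ℂ V] (σ : Representation ℂ M V) (hi : σ.IsIrreducible)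
    (com : ∀ a b : M, a * b * a⁻¹ * b⁻¹ ∈ Subgroup.center M)
    (hf : ∀ z ∈ Subgroup.center M, σ z = 1 → z = 1) (m : M) (hm : m ∉ Subgroup.center M) :
    σ.character m = 0 := by
  rw [Subgroup.mem_center_iff] at hm
  push Not at hm
  obtain ⟨g, hg⟩ := hm
  set z := g * m * g⁻¹ * m⁻¹ with hz
  have hz1 : z ≠ 1 := by
    intro h
    apply hg
    calc g * m = z * (m * g) := by rw [hz]; group
      _ = m * g := by rw [h, one_mul]
  obtain ⟨c, hc⟩ := scal_center σ hi z (com g m)
  have hc1 : c ≠ 1 := by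
    rintro rfl
    apply hz1
    apply hf z (com g m)
    ext v
    rw [hc, one_smul]
    rfl
  have e1 : σ.character (g * m * g⁻¹) = σ.character m := σ.char_conj m g
  have e2 : g * m * g⁻¹ = z * m := by rw [hz]; group
  have e3 : σ.character (z * m) = c * σ.character m := by
    have : σ (z * m) = c • σ m := by
      ext v
      rw [map_mul, Module.End.mul_apply, hc]
      rfl
    rw [Representation.character, this, map_smul, smul_eq_mul]
    rfl
  rw [e2, e3] at e1
  have : (c - 1) * σ.character m = 0 := by rw [sub_mul, e1, one_mul, sub_self]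
  rcases mul_eq_zero.mp this with h | h
  · exact absurd (sub_eq_zero.mp h) hc1
  · exact h

theorem dim_sq [Finite M] [FiniteDimensional ℂ V] (σ : Representation ℂ M V)
    (hi : σ.IsIrreducible) (com : ∀ a b : M, a * b * a⁻¹ * b⁻¹ ∈ Subgroup.center M)
    (hf : ∀ z ∈ Subgroup.center M, σ z = 1 → z = 1) :
    Module.finrank ℂ V ^ 2 = (Subgroup.center M).index := by
  haveI : Fintype M := Fintype.ofFinite M
  haveI : Invertible (Nat.card M : ℂ) :=
    invertibleOfNonzero (by exact_mod_cast (Nat.card_pos (α := M)).ne')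
  haveI := hi
  have h1 := Representation.char_orthonormal σ σ
  rw [if_pos ⟨Representation.Equiv.refl σ⟩] at h1
  have h2 : ∑ g : M, σ.character g * σ.character g⁻¹ =
      ∑ g ∈ Finset.univ.filter (fun g : M => g ∈ Subgroup.center M),
        (Module.finrank ℂ V : ℂ) ^ 2 := by
    rw [Finset.sum_filter]
    refine Finset.sum_congr rfl fun g _ => ?_
    split_ifs with hg
    · obtain ⟨c, hc⟩ := scal_center σ hi g hg
      obtain ⟨d, hd⟩ := scal_center σ hi g⁻¹ ((Subgroup.center M).inv_mem hg)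
      have e1 : σ g = c • 1 := by ext v; rw [hc]; rfl
      have e2 : σ g⁻¹ = d • 1 := by ext v; rw [hd]; rfl
      have e3 : (c * d) • (1 : V →ₗ[ℂ] V) = 1 := by
        have := map_mul σ g g⁻¹
        rw [mul_inv_cancel, map_one, e1, e2, smul_mul_smul_comm, one_mul] at this
        exact this.symm
      haveI := Pool.Agent.H254R3.IN.irr_nontrivial σ hi
      have e4 : c * d = 1 := by
        obtain ⟨v, hv⟩ := exists_ne (0 : V)
        have := congrArg (fun T : V →ₗ[ℂ] V => T v) e3
        have h5 : (c * d) • v = (1 : ℂ) • v := by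
          rw [one_smul]
          exact this
        exact smul_left_injective ℂ hv h5
      rw [Representation.character, Representation.character, e1, e2, map_smul, map_smul,
        LinearMap.trace_one, smul_eq_mul, smul_eq_mul]
      linear_combination ((Module.finrank ℂ V : ℂ) ^ 2) * e4
    · rw [char_zero_off σ hi com hf g hg, zero_mul]
  rw [h2, Finset.sum_const, nsmul_eq_mul] at h1
  have h3 : ((Finset.univ.filter (fun g : M => g ∈ Subgroup.center M)).card : ℂ) =
      (Nat.card (Subgroup.center M) : ℂ) := by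
    rw [Nat.card_eq_fintype_card, Fintype.card_subtype]
  rw [h3] at h1
  have h4 : (Nat.card M : ℂ) ≠ 0 := by exact_mod_cast (Nat.card_pos (α := M)).ne'
  have h5 : (Nat.card (Subgroup.center M) : ℂ) * (Module.finrank ℂ V : ℂ) ^ 2 =
      (Nat.card M : ℂ) := by
    field_simp at h1
    simpa using h1
  have h6 : Nat.card (Subgroup.center M) * Module.finrank ℂ V ^ 2 = Nat.card M := by
    exact_mod_cast h5
  have h7 := Subgroup.card_mul_index (Subgroup.center M)
  rw [← h6] at h7
  exact (Nat.eq_of_mul_eq_mul_left Nat.card_pos h7).symm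

theorem dim_pow (q : ℕ) [Fact q.Prime] [Finite M] (hs : Sy q M) [FiniteDimensional ℂ V]
    (σ : Representation ℂ M V) (hi : σ.IsIrreducible)
    (hf : ∀ z ∈ Subgroup.center M, σ z = 1 → z = 1) : ∃ k : ℕ, Module.finrank ℂ V = q ^ k := by
  have h1 := dim_sq σ hi hs.com hf
  have h2 : IsPGroup q (M ⧸ Subgroup.center M) := by
    intro g
    obtain ⟨m, rfl⟩ := QuotientGroup.mk_surjective g
    refine ⟨1, ?_⟩
    rw [pow_one, ← QuotientGroup.mk_pow]
    exact (QuotientGroup.eq_one_iff _).mpr (hs.pow m)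
  obtain ⟨k, hk⟩ := IsPGroup.iff_card.mp h2
  have h3 : Module.finrank ℂ V ∣ q ^ k := by
    rw [← hk]
    change _ ∣ (Subgroup.center M).index
    rw [← h1]
    exact dvd_pow_self _ two_ne_zero
  obtain ⟨j, _, hj⟩ := (Nat.dvd_prime_pow (Fact.out : q.Prime)).mp h3
  exact ⟨j, hj⟩

end Pool.Agent.K3h69.IN
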