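import Pool.Agent.K3h69.IN.T10a

/-!
# The base case: the group of lifts of determinant one
-/

set_option autoImplicit false

open scoped BigOperators Classical

noncomputable section

namespace Pool.Agent.K3h69.IN

open Pool.Agent.K3h83.IN

variable {M X V : Type} [Group M] [Group X] [AddCommGroup V] [Module ℂ V]

/-- the group of lifts of determinant one -/
def Rh (φ : X →* MulAut M) (R : Subgroup X) (σ : Representation ℂ M V) :
    Subgroup (R × (V ≃ₗ[ℂ] V)) :=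
  (Gp σ).comap (MonoidHom.prodMap (φ.comp R.subtype) (MonoidHom.id (V ≃ₗ[ℂ] V))) ⊓
    ((LinearEquiv.det (R := ℂ) (M := V)).comp (MonoidHom.snd R (V ≃ₗ[ℂ] V))).ker

theorem mem_Rh {φ : X →* MulAut M} {R : Subgroup X} {σ : Representation ℂ M V}
    {a : R × (V ≃ₗ[ℂ] V)} :
    a ∈ Rh φ R σ ↔ (φ a.1, a.2) ∈ Gp σ ∧ LinearEquiv.det a.2 = 1 := Iff.rfl

theorem Rh_fin [Finite X] [FiniteDimensional ℂ V] (φ : X →* MulAut M) (R : Subgroup X)
    (σ : Representation ℂ M V) (hi : σ.IsIrreducible) : Finite (Rh φ R σ) := by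
  haveI := Pool.Agent.H254R3.IN.irr_nontrivial σ hi
  have hn : Module.finrank ℂ V ≠ 0 := Module.finrank_pos.ne'
  haveI : NeZero (Module.finrank ℂ V) := ⟨hn⟩
  have : ((Rh φ R σ : Set (R × (V ≃ₗ[ℂ] V)))).Finite := by
    apply Set.Finite.of_finite_fibers Prod.fst (Set.toFinite _)
    rintro y ⟨a0, ha0, rfl⟩
    have hfin : ((rootsOfUnity (Module.finrank ℂ V) ℂ : Set ℂˣ)).Finite := by
      have hfr : Finite (rootsOfUnity (Module.finrank ℂ V) ℂ) := inferInstance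
      exact Set.finite_coe_iff.mp hfr
    apply (hfin.image fun c => (a0.1, sc c * a0.2)).subset
    rintro a ⟨ha, hay⟩
    have hay' : a.1 = a0.1 := hay
    have h1 : a * a0⁻¹ ∈ Rh φ R σ := (Rh φ R σ).mul_mem ha ((Rh φ R σ).inv_mem ha0)
    have h2 : (a * a0⁻¹).1 = 1 := by
      change a.1 * a0.1⁻¹ = 1
      rw [hay', mul_inv_cancel]
    obtain ⟨h3, h4⟩ := mem_Rh.mp h1
    rw [h2] at h3
    obtain ⟨c, hc⟩ := schur' σ hi (a * a0⁻¹).2 (by simpa using h3)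
    refine ⟨c, ?_, ?_⟩
    · rw [hc, sc_det] at h4
      exact (mem_rootsOfUnity _ c).mpr h4
    · have h5 : a.2 * a0.2⁻¹ = sc c := hc
      ext1
      · exact hay'.symm
      · change sc c * a0.2 = a.2
        rw [← h5, inv_mul_cancel_right]
  exact this.to_subtype

theorem Rh_p [FiniteDimensional ℂ V] (q : ℕ) (φ : X →* MulAut M) (R : Subgroup X)
    (σ : Representation ℂ M V) (hi : σ.IsIrreducible) (hR : IsPGroup q R) (k : ℕ)
    (hk : Module.finrank ℂ V = q ^ k) : IsPGroup q (Rh φ R σ) := by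
  intro a
  obtain ⟨j, hj⟩ := hR a.1.1
  have h1 : (a ^ (q ^ j)).1.1 = 1 := by
    change (a.1.1) ^ (q ^ j) = 1
    exact hj
  obtain ⟨h3, h4⟩ := mem_Rh.mp (a ^ (q ^ j)).2
  rw [h1] at h3
  obtain ⟨c, hc⟩ := schur' σ hi (a ^ (q ^ j)).1.2 (by simpa using h3)
  refine ⟨j + k, ?_⟩
  rw [pow_add, pow_mul]
  apply Subtype.ext
  change (a ^ (q ^ j)).1 ^ (q ^ k) = 1
  ext1
  · change (a ^ (q ^ j)).1.1 ^ (q ^ k) = 1
    rw [h1, one_pow]
  · change (a ^ (q ^ j)).1.2 ^ (q ^ k) = 1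
    rw [hc, sc_det, hk] at h4
    rw [hc, ← map_pow, h4, map_one]

theorem fact2 (h1 : T1) (p q : ℕ) [Fact p.Prime] [Fact q.Prime] [Finite M] [Finite X]
    (φ : X →* MulAut M) (E R : Subgroup X) (hS : SD p q φ E R) (x : X) (hx : x ∈ E)
    (hE : ∀ e ∈ E, ∃ i : ℕ, ∀ m, φ e m = φ (x ^ i) m) (i : ℤ) (hi : ¬ (p : ℤ) ∣ i) (m : M)
    (hm : φ (x ^ i) m * m⁻¹ ∈ Subgroup.center M) : m ∈ Subgroup.center M := by
  have hfix : φ (x ^ i) m = m := h1 p q M X φ E R hS _ (E.zpow_mem hx i) m hm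
  have hcop : IsCoprime (p : ℤ) i :=
    (Prime.coprime_iff_not_dvd (Nat.prime_iff_prime_int.mp Fact.out)).mpr hi
  obtain ⟨a, b, hab⟩ := hcop
  have hst : φ (x ^ i) ∈ MulAction.stabilizer (MulAut M) m := hfix
  have hxp : x ^ p = 1 := hS.Epow x hx
  have hx1 : φ x ∈ MulAction.stabilizer (MulAut M) m := by
    have h2 : φ x = (φ (x ^ i)) ^ b := by
      rw [← map_zpow, ← zpow_mul]
      congr 1
      calc x = x ^ (1 : ℤ) := (zpow_one x).symm
        _ = x ^ (a * p + b * i) := by rw [hab]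
        _ = x ^ (i * b) := by
          rw [zpow_add, mul_comm a, zpow_mul, zpow_natCast, hxp, one_zpow, one_mul, mul_comm]
    rw [h2]
    exact zpow_mem hst b
  apply hS.fpf
  intro e he
  obtain ⟨j, hj⟩ := hE e he
  rw [hj, map_pow]
  exact (pow_mem hx1 j)

theorem cop_dim {p q : ℕ} [hp : Fact p.Prime] [hq : Fact q.Prime] (hne : p ≠ q) (n k : ℕ)
    (hk : n = q ^ k) : Nat.Coprime p n := by
  rw [hk]
  exact Nat.Coprime.pow_right k ((Nat.coprime_primes hp.out hq.out).mpr hne)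

theorem ex_S (h7 : T7) (p q : ℕ) [Fact p.Prime] [Fact q.Prime] [Finite M] [Finite X]
    [FiniteDimensional ℂ V] (φ : X →* MulAut M) (E R : Subgroup X) (hS : SD p q φ E R)
    (σ : Representation ℂ M V) (hi : σ.IsIrreducible)
    (hf : ∀ z ∈ Subgroup.center M, σ z = 1 → z = 1) (x : X) (hx : x ∈ E)
    (hc : Nat.Coprime p (Module.finrank ℂ V)) :
    ∃ S : V ≃ₗ[ℂ] V, (φ x, S) ∈ Gp σ ∧ LinearEquiv.det S = 1 ∧ S ^ p = 1 := by
  obtain ⟨S', hS1, hS2⟩ := ex_imp h7 q hS.sy σ hi hf (φ x) (fun z hz => hS.cen x z hz)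
  have hxp : x ^ p = 1 := hS.Epow x hx
  have h1 : ((1 : MulAut M), S' ^ p) ∈ Gp σ := by
    have := (Gp σ).pow_mem hS1 p
    rw [Prod.pow_mk, ← map_pow, hxp, map_one] at this
    exact this
  obtain ⟨c, hc1⟩ := schur' σ hi _ h1
  have hcn : c ^ Module.finrank ℂ V = 1 := by
    rw [← sc_det (V := V), ← hc1, map_pow, hS2, one_pow]
  obtain ⟨j, hj1, hj2⟩ := Nat.chineseRemainder hc 1 0
  refine ⟨S' ^ j, ?_, by rw [map_pow, hS2, one_pow], ?_⟩
  · have := (Gp σ).pow_mem hS1 j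
    rw [Prod.pow_mk, ← map_pow] at this
    have h2 : x ^ j = x := by
      conv_rhs => rw [← pow_one x]
      rw [pow_eq_pow_iff_modEq]
      exact hj1.of_dvd (orderOf_dvd_of_pow_eq_one hxp)
    rw [h2] at this
    exact this
  · rw [← pow_mul, mul_comm, pow_mul, hc1, ← map_pow]
    have h3 : Module.finrank ℂ V ∣ j := (Nat.modEq_zero_iff_dvd).mp hj2
    obtain ⟨d, rfl⟩ := h3
    rw [pow_mul, hcn, one_pow, map_one]

theorem S_ne (p q : ℕ) [Fact p.Prime] [Fact q.Prime] [Finite M] [Finite X]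
    (φ : X →* MulAut M) (E R : Subgroup X) (hS : SD p q φ E R)
    (σ : Representation ℂ M V)
    (hf : ∀ z ∈ Subgroup.center M, σ z = 1 → z = 1) (x : X)
    (hE : ∀ e ∈ E, ∃ i : ℕ, ∀ m, φ e m = φ (x ^ i) m)
    (hM : Subgroup.center M ≠ ⊤) (S : V ≃ₗ[ℂ] V) (h : (φ x, S) ∈ Gp σ) : S ≠ 1 := by
  rintro rfl
  have h1 : φ x = 1 := Gp_det σ hS.sy.com hf _ _ 1 h (Gp σ).one_mem
  apply hM
  rw [eq_top_iff]
  intro m _
  apply hS.fpf
  intro e he
  obtain ⟨i, hi⟩ := hE e he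
  rw [hi, map_pow, h1, one_pow, MulAut.one_apply]

theorem conj_S (p q : ℕ) [Fact p.Prime] [Fact q.Prime] [Finite M] [Finite X]
    [FiniteDimensional ℂ V] (φ : X →* MulAut M) (E R : Subgroup X) (hS : SD p q φ E R)
    (σ : Representation ℂ M V) (hi : σ.IsIrreducible)
    (x : X) (hx : x ∈ E)
    (hE : ∀ e ∈ E, ∃ i : ℕ, ∀ m, φ e m = φ (x ^ i) m)
    (hc : Nat.Coprime p (Module.finrank ℂ V)) (S : V ≃ₗ[ℂ] V) (hSx : (φ x, S) ∈ Gp σ)
    (hSd : LinearEquiv.det S = 1) (hSp : S ^ p = 1) (y : X) (hy : y ∈ R) (T : V ≃ₗ[ℂ] V)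
    (hT : (φ y, T) ∈ Gp σ) : T⁻¹ * S * T ∈ Subgroup.zpowers S := by
  haveI := Pool.Agent.H254R3.IN.irr_nontrivial σ hi
  have he : y⁻¹ * x * y ∈ E := by
    have := hS.RE y⁻¹ (R.inv_mem hy) x hx
    rwa [inv_inv] at this
  obtain ⟨i, hi2⟩ := hE _ he
  have h1 : φ (y⁻¹ * x * y) = φ (x ^ i) := by
    ext m
    exact hi2 m
  have h2 : (φ (y⁻¹ * x * y), T⁻¹ * S * T) ∈ Gp σ := by
    have := (Gp σ).mul_mem ((Gp σ).mul_mem ((Gp σ).inv_mem hT) hSx) hT
    rw [map_mul, map_mul, map_inv]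
    exact this
  have h3 : (φ (x ^ i), S ^ i) ∈ Gp σ := by
    have := (Gp σ).pow_mem hSx i
    rw [Prod.pow_mk, ← map_pow] at this
    exact this
  have h4 : ((1 : MulAut M), T⁻¹ * S * T * (S ^ i)⁻¹) ∈ Gp σ := by
    have := (Gp σ).mul_mem h2 ((Gp σ).inv_mem h3)
    rw [h1, Prod.inv_mk, Prod.mk_mul_mk, mul_inv_cancel] at this
    exact this
  obtain ⟨c, hc1⟩ := schur' σ hi _ h4
  have h5 : T⁻¹ * S * T = sc c * S ^ i := by
    rw [← hc1, inv_mul_cancel_right]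
  have hcn : c ^ Module.finrank ℂ V = 1 := by
    rw [← sc_det (V := V), ← hc1]
    simp only [map_mul, map_inv, map_pow, hSd, one_pow, inv_one, mul_one, inv_mul_cancel]
  have hcp : c ^ p = 1 := by
    apply sc_inj (V := V)
    rw [map_pow, map_one]
    have h6 : (T⁻¹ * S * T) ^ p = 1 := by
      have : T⁻¹ * S * T = T⁻¹ * S * (T⁻¹)⁻¹ := by rw [inv_inv]
      rw [this, conj_pow, hSp]
      group
    rw [h5, (show Commute (sc c : V ≃ₗ[ℂ] V) (S ^ i) from sc_comm c _).mul_pow, ← pow_mul,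
      mul_comm i p, pow_mul, hSp, one_pow, mul_one] at h6
    exact h6
  have hc0 : c = 1 := by
    have := pow_gcd_eq_one.mpr ⟨hcp, hcn⟩
    rw [hc.gcd_eq_one, pow_one] at this
    exact this
  rw [h5, hc0, map_one, one_mul]
  exact Subgroup.mem_zpowers_iff.mpr ⟨i, by rw [zpow_natCast]⟩

end Pool.Agent.K3h69.IN
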