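import Pool.Agent.K3h69.IN.T10b

/-!
# The base case: extension of characters and the trace of the lifts
-/

set_option autoImplicit false

open scoped BigOperators Classical

noncomputable section

namespace Pool.Agent.K3h69.IN

open Pool.Agent.K3h83.IN

theorem ext_lem (h17 : S17) {Γ L : Type} [Group Γ] [Finite Γ] [Group L] (π : Γ →* L) (S : L)
    (p : ℕ) [Fact p.Prime] (hSp : orderOf S = p)
    (hn : ∀ a : Γ, π a * S * (π a)⁻¹ ∈ Subgroup.zpowers S) (R0 : Subgroup Γ)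
    (hR0 : ∀ a, a ∈ R0 ↔ π a * S = S * π a) (ψ : R0 →* ℂˣ)
    (hψ : ∀ (a : Γ) (z z' : R0), (z' : Γ) = a * z * a⁻¹ → ψ z' = ψ z) :
    ∃ ω : Γ →* ℂˣ, ∀ z : R0, ω z = ψ z := by
  have hn' : ∀ (a : Γ) (h : L), h ∈ Subgroup.zpowers S → π a * h * (π a)⁻¹ ∈ Subgroup.zpowers S := by
    intro a h hh
    obtain ⟨i, rfl⟩ := Subgroup.mem_zpowers_iff.mp hh
    rw [← conj_zpow]
    exact zpow_mem (hn a) i
  have hnorm : ∀ a : Γ, π a ∈ Subgroup.normalizer (Subgroup.zpowers S : Set L) := by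
    intro a
    rw [Subgroup.mem_normalizer_iff]
    intro h
    refine ⟨fun hh => hn' a h hh, fun hh => ?_⟩
    have := hn' a⁻¹ _ hh
    rw [map_inv] at this
    have e : (π a)⁻¹ * (π a * h * (π a)⁻¹) * ((π a)⁻¹)⁻¹ = h := by group
    rw [e] at this
    exact this
  let θ : Γ →* MulAut (Subgroup.zpowers S) :=
    (Subgroup.normalizerMonoidHom (Subgroup.zpowers S)).comp (π.codRestrict _ hnorm)
  have hθ : ∀ (a : Γ) (h : Subgroup.zpowers S), ((θ a h : Subgroup.zpowers S) : L) =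
      π a * h * (π a)⁻¹ := fun a h => rfl
  have hker : ∀ a : Γ, a ∈ R0 ↔ θ a = 1 := by
    intro a
    rw [hR0]
    constructor
    · intro h
      ext ⟨z, hz⟩
      rw [hθ]
      obtain ⟨i, rfl⟩ := Subgroup.mem_zpowers_iff.mp hz
      change π a * S ^ i * (π a)⁻¹ = S ^ i
      have h2 : Commute (π a) S := h
      rw [(h2.zpow_right i).eq, mul_inv_cancel_right]
    · intro h
      have h2 := hθ a ⟨S, Subgroup.mem_zpowers S⟩
      rw [h] at h2
      change S = π a * S * (π a)⁻¹ at h2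
      calc π a * S = (π a * S * (π a)⁻¹) * π a := by group
        _ = S * π a := by rw [← h2]
  have hR0n : ∀ z ∈ R0, ∀ g : Γ, g * z * g⁻¹ ∈ R0 := by
    intro z hz g
    rw [hker] at hz ⊢
    rw [map_mul, map_mul, hz, mul_one, map_inv, mul_inv_cancel]
  let K : Subgroup Γ := ψ.ker.map R0.subtype
  have hK : ∀ z : R0, ψ z = 1 → (z : Γ) ∈ K := fun z hz => ⟨z, hz, rfl⟩
  haveI hKn : K.Normal := by
    constructor
    rintro _ ⟨z, hz, rfl⟩ g
    have h1 := hR0n z z.2 g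
    have h2 := hψ g z ⟨_, h1⟩ rfl
    exact hK ⟨_, h1⟩ (h2.trans hz)
  have hKθ : ∀ k ∈ K, θ k = 1 := by
    rintro _ ⟨z, hz, rfl⟩
    exact (hker z).mp z.2
  let f : Γ ⧸ K →* MulAut (Subgroup.zpowers S) := QuotientGroup.lift K θ hKθ
  have hcard : Nat.card (Subgroup.zpowers S) = p := by rw [Nat.card_zpowers, hSp]
  haveI hcyc : IsCyclic (MulAut (Subgroup.zpowers S)) := by
    let e := IsCyclic.mulAutMulEquiv (Subgroup.zpowers S)
    haveI : IsCyclic (ZMod (Nat.card (Subgroup.zpowers S)))ˣ := by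
      rw [hcard]
      infer_instance
    exact isCyclic_of_surjective e.symm e.symm.surjective
  have hfc : f.ker ≤ Subgroup.center (Γ ⧸ K) := by
    intro g hg
    obtain ⟨a, rfl⟩ := QuotientGroup.mk_surjective g
    have ha : a ∈ R0 := (hker a).mpr hg
    rw [Subgroup.mem_center_iff]
    intro h
    obtain ⟨b, rfl⟩ := QuotientGroup.mk_surjective h
    rw [← QuotientGroup.mk_mul, ← QuotientGroup.mk_mul, QuotientGroup.eq]
    have h1 := hR0n a ha b⁻¹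
    have h2 := hψ b⁻¹ ⟨a, ha⟩ ⟨_, h1⟩ rfl
    have h3 : ψ (⟨a, ha⟩⁻¹ * ⟨_, h1⟩) = 1 := by
      rw [map_mul, h2, map_inv, inv_mul_cancel]
    have h4 := hK _ h3
    have e : ((⟨a, ha⟩⁻¹ * ⟨b⁻¹ * a * b⁻¹⁻¹, h1⟩ : R0) : Γ) = (b * a)⁻¹ * (a * b) := by
      change a⁻¹ * (b⁻¹ * a * b⁻¹⁻¹) = _
      group
    rw [e] at h4
    exact h4
  have hcomm : commutator Γ ≤ K := by
    rw [commutator_def, Subgroup.commutator_le]
    intro a _ b _
    rw [← QuotientGroup.eq_one_iff, commutatorElement_def]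
    have := commutative_of_cyclic_center_quotient f hfc (a : Γ ⧸ K) (b : Γ ⧸ K)
    rw [QuotientGroup.mk_mul, QuotientGroup.mk_mul, QuotientGroup.mk_mul, QuotientGroup.mk_inv,
      QuotientGroup.mk_inv, this]
    group
  apply h17 Γ R0 ψ
  intro z hz
  obtain ⟨z₁, hz₁, hz2⟩ := hcomm hz
  have : z₁ = z := Subtype.ext hz2
  rw [← this]
  exact hz₁

variable {M X V : Type} [Group M] [Group X] [AddCommGroup V] [Module ℂ V]

theorem cen_pow (α : MulAut M) (hα : ∀ z ∈ Subgroup.center M, α z = z) (m : M)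
    (h : α m * m⁻¹ ∈ Subgroup.center M) (k : ℕ) : (α ^ k) m * m⁻¹ ∈ Subgroup.center M := by
  induction k with
  | zero =>
    rw [pow_zero, MulAut.one_apply, mul_inv_cancel]
    exact (Subgroup.center M).one_mem
  | succ k ih =>
    have hz : (α ^ k) (α m * m⁻¹) = α m * m⁻¹ := by
      have h1 : α ∈ MulAction.stabilizer (MulAut M) (α m * m⁻¹) := hα _ h
      exact pow_mem h1 k
    have e : (α ^ (k + 1)) m * m⁻¹ = (α m * m⁻¹) * ((α ^ k) m * m⁻¹) := by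
      rw [pow_succ, MulAut.mul_apply]
      have h2 : α m = (α m * m⁻¹) * m := by group
      conv_lhs => rw [h2, map_mul, hz]
      group
    rw [e]
    exact mul_mem h ih

/-- the trace -/
def tr (T : V ≃ₗ[ℂ] V) : ℂ := LinearMap.trace ℂ V (T : V →ₗ[ℂ] V)

theorem tr_comm (A B : V ≃ₗ[ℂ] V) : tr (A * B) = tr (B * A) :=
  LinearMap.trace_mul_comm ℂ (A : V →ₗ[ℂ] V) (B : V →ₗ[ℂ] V)

theorem tr_sc (c : ℂˣ) (T : V ≃ₗ[ℂ] V) : tr (sc c * T) = c * tr T := by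
  have : ((sc c * T : V ≃ₗ[ℂ] V) : V →ₗ[ℂ] V) = (c : ℂ) • (T : V →ₗ[ℂ] V) := by
    ext v
    rfl
  rw [tr, this, map_smul, smul_eq_mul]
  rfl

/-- the key equality for the traces -/
theorem key (h1 : T1) (h8 : T8) (p q : ℕ) [Fact p.Prime] [Fact q.Prime] [Finite M] [Finite X]
    [FiniteDimensional ℂ V] (φ : X →* MulAut M) (E R : Subgroup X) (hS : SD p q φ E R)
    (σ : Representation ℂ M V) (hi : σ.IsIrreducible)
    (hf : ∀ z ∈ Subgroup.center M, σ z = 1 → z = 1)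
    (x : X) (hx : x ∈ E)
    (hE : ∀ e ∈ E, ∃ i : ℕ, ∀ m, φ e m = φ (x ^ i) m)
    (hpg : IsPGroup q (Rh φ R σ)) (S : V ≃ₗ[ℂ] V) (hSx : (φ x, S) ∈ Gp σ)
    (hSp : S ^ p = 1) (c : V ≃ₗ[ℂ] V) (hc : c ∈ Subgroup.zpowers S) (hc1 : c ≠ 1)
    (a : Rh φ R σ) (hcomm : Commute S a.1.2) :
    tr (c * a.1.2) * tr (c * a.1.2)⁻¹ = 1 := by
  obtain ⟨i, rfl⟩ := Subgroup.mem_zpowers_iff.mp hc
  have hpi : ¬ (p : ℤ) ∣ i := by
    rintro ⟨d, rfl⟩
    apply hc1
    rw [zpow_mul, zpow_natCast, hSp, one_zpow]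
  have hSi : ∀ j : ℤ, (φ (x ^ j), S ^ j) ∈ Gp σ := by
    intro j
    have := (Gp σ).zpow_mem hSx j
    change (φ x ^ j, S ^ j) ∈ Gp σ at this
    rw [← map_zpow] at this
    exact this
  have ha := (mem_Rh.mp a.2).1
  have hα : (φ (x ^ i * a.1.1), S ^ i * a.1.2) ∈ Gp σ := by
    have := (Gp σ).mul_mem (hSi i) ha
    rw [map_mul]
    exact this
  refine h8 q M hS.sy V σ hi hf (φ (x ^ i * a.1.1)) (fun z hz => hS.cen _ z hz) ?_ _ hα
  intro m hm
  obtain ⟨k, hk⟩ := hpg a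
  have h2 := cen_pow _ (fun z hz => hS.cen _ z hz) m hm (q ^ k)
  have hTk : a.1.2 ^ (q ^ k) = 1 := by
    have := congrArg (fun b : Rh φ R σ => b.1.2) hk
    exact this
  have h3 : (S ^ i * a.1.2) ^ (q ^ k) = S ^ (i * (q ^ k : ℕ)) := by
    rw [(hcomm.zpow_left i).mul_pow, hTk, mul_one, zpow_mul, zpow_natCast]
  have h4 : (φ (x ^ i * a.1.1) ^ (q ^ k), S ^ (i * (q ^ k : ℕ))) ∈ Gp σ := by
    have := (Gp σ).pow_mem hα (q ^ k)
    rw [Prod.pow_mk, h3] at this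
    exact this
  have h5 := Gp_det σ hS.sy.com hf _ _ _ h4 (hSi (i * (q ^ k : ℕ)))
  rw [h5] at h2
  apply fact2 h1 p q φ E R hS x hx hE _ _ m h2
  intro hd
  have hpp : Prime (p : ℤ) := Nat.prime_iff_prime_int.mp Fact.out
  rcases hpp.dvd_or_dvd hd with h | h
  · exact hpi h
  · have h6 : p ∣ q ^ k := by exact_mod_cast h
    have h7 := (Fact.out : p.Prime).dvd_of_dvd_pow h6
    exact hS.ne ((Nat.prime_dvd_prime_iff_eq Fact.out Fact.out).mp h7)

end Pool.Agent.K3h69.IN
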